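import Pool.Agent.N757.SL.Defs

/-!
# Stacky lines: the cover lemma
-/

set_option autoImplicit false

namespace Pool.Agent.N757.SL

open NumberField IsDedekindDomain Height Real Polynomial Pool.Agent.N757.RD Pool.Agent.N757.TL

variable {K : Type} [Field K] [NumberField K]

/-- all zeros of `F` are allowed over a point of order `P` (`P = 0`: a cusp) -/
def Comp (p q P : ℕ) (F : ℤ[X]) : Prop :=
  ∃ (c : ℤ) (i j : ℕ) (V : ℤ[X]), c ≠ 0 ∧ F = C c * X ^ i * (1 - X) ^ j * V ^ P ∧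
    (i = 0 ∨ ((P = 0 ↔ p = 0) ∧ P ∣ i * p)) ∧ (j = 0 ∨ ((P = 0 ↔ q = 0) ∧ P ∣ j * q))

/-- all zeros of `G` are cusps or zeros of `U` -/
def Csp (p q : ℕ) (G U : ℤ[X]) : Prop :=
  ∃ (c : ℤ) (i j k : ℕ), c ≠ 0 ∧ G ∣ C c * X ^ i * (1 - X) ^ j * U ^ k ∧
    (i = 0 ∨ p = 0) ∧ (j = 0 ∨ q = 0)

theorem powAt_pow {p P i : ℕ} {v : HeightOneSpectrum (𝓞 K)} {x : K}
    (hx : FinitePlace.mk v x ≤ 1) (h : p ≠ 0 → v.valuation K x < 1 → PowAt p v x)
    (hi : i = 0 ∨ ((P = 0 ↔ p = 0) ∧ P ∣ i * p)) (hP : P ≠ 0) : PowAt P v (x ^ i) := by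
  rcases hi with rfl | ⟨h1, h2⟩
  · exact PowAt.of_one (by rw [pow_zero, map_one])
  have hp : p ≠ 0 := fun h3 => hP (h1.2 h3)
  by_cases hlt : v.valuation K x < 1
  · exact (h hp hlt).pow_of_dvd h2
  · have h3 : v.valuation K x = 1 := le_antisymm ((mk_le_one_iff v x).1 hx) (not_lt.1 hlt)
    exact PowAt.of_one (by rw [map_pow, h3, one_pow])

/-- a component over a stacky point -/
theorem comp_pow {p q P : ℕ} {c : ℤ} {i j : ℕ} {v : HeightOneSpectrum (𝓞 K)} {x y V g : K}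
    (hP : P ≠ 0) (hx : FinitePlace.mk v x ≤ 1) (hx' : FinitePlace.mk v (1 - x) ≤ 1)
    (hI : IntAt p q v x) (hc : FinitePlace.mk v (c : K) = 1) (hg : FinitePlace.mk v g = 1)
    (hi : i = 0 ∨ ((P = 0 ↔ p = 0) ∧ P ∣ i * p)) (hj : j = 0 ∨ ((P = 0 ↔ q = 0) ∧ P ∣ j * q))
    (hy : y = c * x ^ i * (1 - x) ^ j * V ^ P / g) : PowAt P v y := by
  rw [hy, div_eq_mul_inv]
  refine (((PowAt.of_one (val_one_of_mk hc)).mul (powAt_pow hx hI.1 hi hP)).mul
    (powAt_pow hx' hI.2 hj hP)).mul (PowAt.of_pow P v V) |>.mul (PowAt.of_one ?_)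
  rw [map_inv₀, val_one_of_mk hg, inv_one]

/-- a component over a cusp -/
theorem comp_cusp {p q : ℕ} {i j : ℕ} {S : Set (HeightOneSpectrum (𝓞 K))}
    {v : HeightOneSpectrum (𝓞 K)} {x z w : K} (hv : v ∉ S)
    (hx : FinitePlace.mk v x ≤ 1) (hx' : FinitePlace.mk v (1 - x) ≤ 1)
    (hi : i = 0 ∨ p = 0) (hj : j = 0 ∨ q = 0)
    (h : FinitePlace.mk v (z * x ^ i * (1 - x) ^ j * w) < 1) (hz : FinitePlace.mk v z = 1)
    (hw : FinitePlace.mk v w = 1) : v ∈ J p q S x := by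
  rw [map_mul, map_mul, map_mul, map_pow, map_pow, hz, hw, one_mul, mul_one] at h
  refine ⟨hv, Or.inr ?_⟩
  rcases eq_or_lt_of_le hx with h1 | h1
  · right
    have hj0 : j ≠ 0 := by
      rintro rfl
      rw [h1, one_pow, pow_zero, one_mul] at h
      exact lt_irrefl _ h
    refine ⟨hj.resolve_left hj0, (mk_lt_one_iff v _).1 ?_⟩
    rcases eq_or_lt_of_le hx' with h2 | h2
    · rw [h1, h2, one_pow, one_pow, one_mul] at h
      exact absurd h (lt_irrefl _)
    · exact h2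
  · by_cases hi0 : i = 0
    · right
      have hj0 : j ≠ 0 := by
        rintro rfl
        rw [hi0, pow_zero, pow_zero, one_mul] at h
        exact lt_irrefl _ h
      refine ⟨hj.resolve_left hj0, (mk_lt_one_iff v _).1 ?_⟩
      rcases eq_or_lt_of_le hx' with h2 | h2
      · rw [hi0, pow_zero, h2, one_pow, one_mul] at h
        exact absurd h (lt_irrefl _)
      · exact h2
    · left
      exact ⟨hi.resolve_left hi0, (mk_lt_one_iff v _).1 h1⟩

theorem aeval_C' (x : K) (c : ℤ) : aeval x (C c : ℤ[X]) = (c : K) := by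
  rw [aeval_C]; rfl

/-- **The cover lemma.** -/
theorem cover {p q P Q N : ℕ} {F G U : ℤ[X]} (hN : 1 ≤ N) (dF : F.natDegree ≤ N)
    (cF : F.coeff N ≠ 0) (dG : G.natDegree ≤ N - 1) (hU : U ≠ 0)
    (hcop : ∀ x : ℂ, aeval x F = 0 → aeval x G ≠ 0)
    (hF : Comp p q P F) (hE : Comp p q Q (G - F)) (hG : Csp p q G U)
    (hθ : 0 < 1 - 1 / (P : ℝ) - 1 / (Q : ℝ))
    (hcount : (U.natDegree : ℝ) ≤
      N * (1 - 1 / (P : ℝ) - 1 / (Q : ℝ)) - (1 - 1 / (p : ℝ) - 1 / (q : ℝ)))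
    (S : Set (HeightOneSpectrum (𝓞 K))) (T : Finset (Pl K)) {δ : ℝ} (hδ : 0 < δ)
    (h : Ineq P Q S T δ) : ∃ (T' : Finset (Pl K)) (δ' : ℝ), 0 < δ' ∧ Ineq p q S T' δ' := by
  classical
  obtain ⟨c₁, i₁, j₁, V₁, hc₁, eF, hi₁, hj₁⟩ := hF
  obtain ⟨c₂, i₂, j₂, V₂, hc₂, eE, hi₂, hj₂⟩ := hE
  obtain ⟨c₃, i₃, j₃, k₃, hc₃, ⟨G', eG⟩, hi₃, hj₃⟩ := hG
  obtain ⟨A, B, c₀, hc₀, hAB⟩ : ∃ (A B : ℤ[X]) (c : ℤ), c ≠ 0 ∧ A * F + B * G = C c := by
    apply exists_int_bezout
    refine (Polynomial.isCoprime_iff_aeval_ne_zero_of_isAlgClosed ℚ ℂ _ _).2 ?_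
    intro x
    have g1 : ∀ P : ℤ[X], aeval x (P.map (Int.castRingHom ℚ)) = aeval x P := by
      intro P
      rw [show Int.castRingHom ℚ = algebraMap ℤ ℚ from rfl, aeval_map_algebraMap]
    rw [g1, g1]
    by_cases hx : aeval x F = 0
    · exact Or.inr (hcop x hx)
    · exact Or.inl hx
  -- the bad primes
  obtain ⟨n₀, hn₀⟩ : ∃ n₀ : ℤ, n₀ = F.coeff N * c₀ * c₁ * c₂ * c₃ := ⟨_, rfl⟩
  have hn₀0 : n₀ ≠ 0 := by
    rw [hn₀]
    exact mul_ne_zero (mul_ne_zero (mul_ne_zero (mul_ne_zero cF hc₀) hc₁) hc₂) hc₃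
  have hbad := finite_intCast_ne_one (K := K) hn₀0
  obtain ⟨Bad, hBad⟩ : ∃ B : Set (HeightOneSpectrum (𝓞 K)),
    B = {p : HeightOneSpectrum (𝓞 K) | FinitePlace.mk p ((n₀ : ℤ) : K) ≠ 1} := ⟨_, rfl⟩
  rw [← hBad] at hbad
  have hgood : ∀ v : HeightOneSpectrum (𝓞 K), v ∉ Bad →
      FinitePlace.mk v ((F.coeff N : ℤ) : K) = 1 ∧ FinitePlace.mk v ((c₀ : ℤ) : K) = 1 ∧
      FinitePlace.mk v ((c₁ : ℤ) : K) = 1 ∧ FinitePlace.mk v ((c₂ : ℤ) : K) = 1 ∧
      FinitePlace.mk v ((c₃ : ℤ) : K) = 1 := by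
    intro v hv
    have hv1 : FinitePlace.mk v ((n₀ : ℤ) : K) = 1 := by
      by_contra h1
      exact hv (by rw [hBad]; exact h1)
    have key : ∀ m : ℤ, m ∣ n₀ → FinitePlace.mk v ((m : ℤ) : K) = 1 := by
      rintro m ⟨b, hb⟩
      have h3 : FinitePlace.mk v ((m : ℤ) : K) * FinitePlace.mk v ((b : ℤ) : K) = 1 := by
        rw [← map_mul, ← Int.cast_mul, ← hb, hv1]
      have h4 := fin_intCast_le (K := K) v m
      have h5 := fin_intCast_le (K := K) v b
      have h6 : 0 ≤ FinitePlace.mk v ((m : ℤ) : K) := apply_nonneg _ _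
      refine le_antisymm h4 ?_
      nlinarith
    refine ⟨key _ ?_, key _ ?_, key _ ?_, key _ ?_, key _ ?_⟩ <;> rw [hn₀]
    · exact ⟨c₀ * c₁ * c₂ * c₃, by ring⟩
    · exact ⟨F.coeff N * c₁ * c₂ * c₃, by ring⟩
    · exact ⟨F.coeff N * c₀ * c₂ * c₃, by ring⟩
    · exact ⟨F.coeff N * c₀ * c₁ * c₃, by ring⟩
    · exact ⟨F.coeff N * c₀ * c₁ * c₂, by ring⟩
  obtain ⟨T', hT'⟩ : ∃ T' : Finset (Pl K), T' = T ∪ (Finset.disjSum ∅ hbad.toFinset) := ⟨_, rfl⟩
  have hTT' : ∀ v ∈ T, v ∈ T' := fun v hv => by rw [hT']; exact Finset.mem_union_left _ hv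
  have hBT' : ∀ v ∈ Bad, (Sum.inr v : Pl K) ∈ T' := fun v hv => by
    rw [hT']
    exact Finset.mem_union_right _ (Finset.inr_mem_disjSum.2 (hbad.mem_toFinset.2 hv))
  have hδ₁ : 0 < min δ (1 / 2) := lt_min hδ (by norm_num)
  obtain ⟨δ', hδ', hn⟩ := near_all (P := fun x : K => aeval x G ≠ 0)
    (f := fun x => aeval x F / aeval x G) T'
    (fun v _ B hB => near_ratio v hN dF dG cF B hB) hδ₁
  obtain ⟨C1, hC1, hge⟩ := D_ratio_ge dF hN cF hc₀ hAB
  have hF0 : F ≠ 0 := by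
    rintro rfl
    exact cF (coeff_zero N)
  have hE0 : G - F ≠ 0 := by
    intro h0
    have h1 : (G - F).coeff N = 0 := by rw [h0, coeff_zero]
    rw [coeff_sub, coeff_eq_zero_of_natDegree_lt (show G.natDegree < N by omega), zero_sub,
      neg_eq_zero] at h1
    exact cF h1
  obtain ⟨C2, hC2, hrF⟩ := roots_bdd (K := K) hF0
  obtain ⟨C3, hC3, hrE⟩ := roots_bdd (K := K) hE0
  obtain ⟨C4, hC4, hrU⟩ := roots_bdd (K := K) hU
  have hd := dg_pos (K := K)
  have hWb : 0 ≤ W Bad := W_nonneg _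
  have hln : 0 ≤ Real.log (nrm U) * dg K := mul_nonneg (log_nrm_nonneg _) hd.le
  have hC1d : 0 ≤ C1 * dg K := by positivity
  obtain ⟨C, hC⟩ : ∃ C : ℝ, C = C1 * dg K + C2 + C3 + C4 + W Bad + Real.log (nrm U) * dg K := ⟨_, rfl⟩
  refine ⟨T', δ', hδ', ?_⟩
  refine stepθ (h := D) (r := fun x => W (J p q S x)) (N := (N : ℝ)) (C := C)
    (θ' := 1 - 1 / (P : ℝ) - 1 / (Q : ℝ)) D_nonneg (fun x => W_nonneg _) (by exact_mod_cast hN)
    (by rw [hC]; positivity) hθ ?_ h
  rintro x ⟨hx0, hx1, hint, hclose⟩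
  by_cases hFx : aeval x F = 0
  · left
    have := hrF x hFx
    rw [hC]; linarith
  by_cases hEx : aeval x (G - F) = 0
  · left
    have := hrE x hEx
    rw [hC]; linarith
  by_cases hUx : aeval x U = 0
  · left
    have := hrU x hUx
    rw [hC]; linarith
  right
  have hx1' : (1 : K) - x ≠ 0 := sub_ne_zero.2 hx1.symm
  have eGx : (c₃ : K) * x ^ i₃ * (1 - x) ^ j₃ * aeval x U ^ k₃ = aeval x G * aeval x G' := by
    have := congrArg (aeval x) eG
    simp only [map_mul, map_pow, map_sub, map_one, aeval_X, aeval_C'] at this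
    exact this
  have hGx : aeval x G ≠ 0 := by
    intro h0
    rw [h0, zero_mul] at eGx
    have hc₃K : ((c₃ : ℤ) : K) ≠ 0 := by exact_mod_cast hc₃
    exact mul_ne_zero (mul_ne_zero (mul_ne_zero hc₃K (pow_ne_zero _ hx0)) (pow_ne_zero _ hx1'))
      (pow_ne_zero _ hUx) eGx
  have eFx : aeval x F = (c₁ : K) * x ^ i₁ * (1 - x) ^ j₁ * aeval x V₁ ^ P := by
    have := congrArg (aeval x) eF
    simp only [map_mul, map_pow, map_sub, map_one, aeval_X, aeval_C'] at this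
    exact this
  have eEx : aeval x G - aeval x F = (c₂ : K) * x ^ i₂ * (1 - x) ^ j₂ * aeval x V₂ ^ Q := by
    have := congrArg (aeval x) eE
    simp only [map_mul, map_pow, map_sub, map_one, aeval_X, aeval_C'] at this
    exact this
  have eABx : aeval x A * aeval x F + aeval x B * aeval x G = (c₀ : K) := by
    have := congrArg (aeval x) hAB
    simp only [map_mul, map_add, aeval_C'] at this
    exact this
  rw [map_sub] at hEx
  obtain ⟨φ, hφ⟩ : ∃ φ : K, φ = aeval x F / aeval x G := ⟨_, rfl⟩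
  have h1φ : 1 - φ = (aeval x G - aeval x F) / aeval x G := by rw [hφ]; field_simp
  have hnear := hn x hGx hclose
  -- local analysis
  have local1 : ∀ v : HeightOneSpectrum (𝓞 K), v ∈ Bad → 1 < FinitePlace.mk v φ := by
    intro v hv
    have h1 := hnear _ (hBT' v hv)
    simp only [av_inr] at h1
    rw [← hφ] at h1
    have h2 : min δ (1 / 2) * FinitePlace.mk v φ ≤ 1 / 2 * FinitePlace.mk v φ :=
      mul_le_mul_of_nonneg_right (min_le_right _ _) (apply_nonneg _ _)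
    linarith
  have local2 : ∀ v : HeightOneSpectrum (𝓞 K), v ∉ Bad → 1 < FinitePlace.mk v x →
      1 < FinitePlace.mk v φ := by
    intro v hv hvx
    obtain ⟨g1, -⟩ := hgood v hv
    have h1 := fin_top dF hN v hvx (by rw [g1, one_mul]; exact hvx)
    rw [g1, one_mul] at h1
    have h2 : FinitePlace.mk v (aeval x G) ≤ FinitePlace.mk v x ^ (N - 1) := by
      refine (fin_aeval_le v x G).trans ?_
      rw [max_eq_right hvx.le]
      exact pow_le_pow_right₀ hvx.le dG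
    have hGp : 0 < FinitePlace.mk v (aeval x G) := FinitePlace.pos_iff.2 hGx
    rw [hφ, map_div₀, one_lt_div hGp]
    calc FinitePlace.mk v (aeval x G) ≤ FinitePlace.mk v x ^ (N - 1) := h2
      _ < FinitePlace.mk v x ^ N := pow_lt_pow_right₀ hvx (by omega)
      _ ≤ _ := h1
  have hint1 : ∀ v : HeightOneSpectrum (𝓞 K), FinitePlace.mk v x ≤ 1 →
      ∀ P : ℤ[X], FinitePlace.mk v (aeval x P) ≤ 1 := by
    intro v hv P
    have := fin_aeval_le v x P
    rwa [max_eq_left hv, one_pow] at this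
  have hone : ∀ v : HeightOneSpectrum (𝓞 K), FinitePlace.mk v x ≤ 1 →
      FinitePlace.mk v (1 - x) ≤ 1 := by
    intro v hv
    have := hint1 v hv (1 - X)
    simpa using this
  have local3 : ∀ v : HeightOneSpectrum (𝓞 K), v ∉ Bad → FinitePlace.mk v x ≤ 1 →
      FinitePlace.mk v (aeval x G) < 1 → 1 < FinitePlace.mk v φ := by
    intro v hv hvx hG1
    obtain ⟨-, g2, -⟩ := hgood v hv
    have hGp : 0 < FinitePlace.mk v (aeval x G) := FinitePlace.pos_iff.2 hGx
    have hF1 : FinitePlace.mk v (aeval x F) = 1 := by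
      refine le_antisymm (hint1 v hvx F) ?_
      by_contra hcon
      push Not at hcon
      have h1 := fin_add_le v (aeval x A * aeval x F) (aeval x B * aeval x G)
      rw [eABx, g2, map_mul, map_mul] at h1
      have h2 := hint1 v hvx A
      have h3 := hint1 v hvx B
      have h4 : 0 ≤ FinitePlace.mk v (aeval x A) := apply_nonneg _ _
      have h5 : 0 ≤ FinitePlace.mk v (aeval x B) := apply_nonneg _ _
      have h6 : 0 ≤ FinitePlace.mk v (aeval x F) := apply_nonneg _ _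
      rcases le_max_iff.1 h1 with h | h <;> nlinarith
    rw [hφ, map_div₀, hF1, one_lt_div hGp]
    exact hG1
  refine ⟨φ, ⟨?_, ?_, ?_, ?_⟩, ?_, ?_⟩
  · rw [hφ]; exact div_ne_zero hFx hGx
  · intro h1
    rw [h1, sub_self] at h1φ
    exact div_ne_zero hEx hGx h1φ.symm
  · -- integrality
    intro v hv
    by_cases hvb : v ∈ Bad
    · exact intAt_of_large (local1 v hvb)
    obtain ⟨-, -, g3, g4, -⟩ := hgood v hvb
    rcases lt_or_ge 1 (FinitePlace.mk v x) with hvx | hvx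
    · exact intAt_of_large (local2 v hvb hvx)
    rcases lt_or_eq_of_le (hint1 v hvx G) with hG1 | hG1
    · exact intAt_of_large (local3 v hvb hvx hG1)
    refine ⟨fun hP _ => ?_, fun hQ _ => ?_⟩
    · exact comp_pow hP hvx (hone v hvx) (hint v hv) g3 hG1 hi₁ hj₁ (by rw [hφ, eFx])
    · exact comp_pow hQ hvx (hone v hvx) (hint v hv) g4 hG1 hi₂ hj₂ (by rw [h1φ, eEx])
  · intro v hv
    have h1 := hnear v (hTT' v hv)
    simp only [← hφ] at h1
    have h2 : min δ (1 / 2) * av v φ ≤ δ * av v φ :=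
      mul_le_mul_of_nonneg_right (min_le_left _ _) (apply_nonneg _ _)
    linarith
  · have := hge K x hGx
    rw [hC, hφ]
    linarith
  · have hsub : J P Q S φ ⊆ J p q S x ∪ (lows (aeval x U) ∪ Bad) := by
      rintro v ⟨hvS, hv⟩
      by_cases hvb : v ∈ Bad
      · exact Or.inr (Or.inr hvb)
      obtain ⟨g1, g2, g3, g4, g5⟩ := hgood v hvb
      rcases lt_or_ge 1 (FinitePlace.mk v x) with hvx | hvx
      · left
        refine ⟨hvS, Or.inl ?_⟩
        by_contra hcon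
        exact absurd ((mk_le_one_iff v x).2 (not_lt.1 hcon)) (not_le.2 hvx)
      rcases lt_or_eq_of_le (hint1 v hvx G) with hG1 | hG1
      · -- over the cusp `∞`
        by_cases hU1 : FinitePlace.mk v (aeval x U) < 1
        · exact Or.inr (Or.inl hU1)
        left
        have hU2 : FinitePlace.mk v (aeval x U) = 1 := le_antisymm (hint1 v hvx U) (not_lt.1 hU1)
        refine comp_cusp hvS hvx (hone v hvx) hi₃ hj₃ (z := (c₃ : K)) (w := aeval x U ^ k₃) ?_ g5
          (by rw [map_pow, hU2, one_pow])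
        rw [eGx, map_mul]
        have h4 := hint1 v hvx G'
        have h5 : 0 ≤ FinitePlace.mk v (aeval x G) := apply_nonneg _ _
        nlinarith
      · -- integral values
        left
        rcases hv with hv | ⟨hP, hv⟩ | ⟨hQ, hv⟩
        · exfalso
          have h1 : FinitePlace.mk v φ ≤ 1 := by
            rw [hφ, map_div₀, hG1, div_one]
            exact hint1 v hvx F
          exact absurd ((mk_le_one_iff v φ).1 h1) (not_le.2 hv)
        · have h1 := (mk_lt_one_iff v φ).2 hv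
          rw [hφ, map_div₀, hG1, div_one, eFx, hP, pow_zero] at h1
          refine comp_cusp hvS hvx (hone v hvx) (hi₁.imp_right fun h => h.1.1 hP)
            (hj₁.imp_right fun h => h.1.1 hP) h1 g3 (map_one _)
        · have h1 := (mk_lt_one_iff v (1 - φ)).2 hv
          rw [h1φ, map_div₀, hG1, div_one, eEx, hQ, pow_zero] at h1
          refine comp_cusp hvS hvx (hone v hvx) (hi₂.imp_right fun h => h.1.1 hQ)
            (hj₂.imp_right fun h => h.1.1 hQ) h1 g4 (map_one _)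
    have f1 := finite_J (p := p) (q := q) (S := S) hx0 hx1
    have f2 := finite_lows hUx
    have h3 := W_mono hsub (f1.union (f2.union hbad))
    have h4 := W_union f1 (f2.union hbad)
    have h5 := W_union f2 hbad
    have h6 := W_lows_le hUx
    have h7 := D_aeval_le x U
    have h8 : (U.natDegree : ℝ) * D x ≤
        (N * (1 - 1 / (P : ℝ) - 1 / (Q : ℝ)) - (1 - 1 / (p : ℝ) - 1 / (q : ℝ))) * D x :=
      mul_le_mul_of_nonneg_right hcount (D_nonneg x)
    change W (J P Q S φ) ≤ W (J p q S x) + _ + C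
    rw [hC]
    linarith

end Pool.Agent.N757.SL
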