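import Pool.Agent.N757.TL.Fin

/-!
# Stacky lines with a rational cusp: definitions and the transfer of inequalities
-/

set_option autoImplicit false

namespace Pool.Agent.N757.SL

open NumberField IsDedekindDomain Height Real Polynomial Pool.Agent.N757.RD Pool.Agent.N757.TL

variable {K : Type} [Field K] [NumberField K]

/-- the valuation of `x` at `v` is divisible by `p` -/
def PowAt (p : ℕ) (v : HeightOneSpectrum (𝓞 K)) (x : K) : Prop :=
  ∃ g : WithZero (Multiplicative ℤ), v.valuation K x = g ^ p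

/-- `t` is integral at `v` on the line with points of orders `p` at `0` and `q` at `1`
(order `0` is no condition) -/
def IntAt (p q : ℕ) (v : HeightOneSpectrum (𝓞 K)) (t : K) : Prop :=
  (p ≠ 0 → v.valuation K t < 1 → PowAt p v t) ∧
    (q ≠ 0 → v.valuation K (1 - t) < 1 → PowAt q v (1 - t))

/-- the primes outside `S` at which `t` meets a cusp: `∞`, and `0` if `p = 0`, and `1` if `q = 0` -/
def J (p q : ℕ) (S : Set (HeightOneSpectrum (𝓞 K))) (t : K) : Set (HeightOneSpectrum (𝓞 K)) :=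
  {v | v ∉ S ∧ (1 < v.valuation K t ∨ (p = 0 ∧ v.valuation K t < 1) ∨
    (q = 0 ∧ v.valuation K (1 - t) < 1))}

/-- the inequality for the points close to `∞` at the places of `T` -/
def Ineq (p q : ℕ) (S : Set (HeightOneSpectrum (𝓞 K))) (T : Finset (Pl K)) (δ : ℝ) : Prop :=
  ∀ ε : ℝ, 0 < ε → ∃ C : ℝ, ∀ t : K, (t ≠ 0 ∧ t ≠ 1 ∧ (∀ v ∉ S, IntAt p q v t) ∧
    ∀ v ∈ T, 1 ≤ δ * av v t) →
    (1 - 1 / (p : ℝ) - 1 / (q : ℝ) - ε) * D t ≤ W (J p q S t) + C

theorem J_sub (p q : ℕ) (S : Set (HeightOneSpectrum (𝓞 K))) (t : K) : J p q S t ⊆ I t := by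
  rintro v ⟨-, h | ⟨-, h⟩ | ⟨-, h⟩⟩
  · left
    intro h1
    have := (mk_le_one_iff v t).1 h1.le
    exact absurd h (not_lt.2 this)
  · left
    exact ne_of_lt ((mk_lt_one_iff v t).2 h)
  · right
    exact ne_of_lt ((mk_lt_one_iff v _).2 h)

theorem finite_J {p q : ℕ} {S : Set (HeightOneSpectrum (𝓞 K))} {t : K} (h0 : t ≠ 0) (h1 : t ≠ 1) :
    (J p q S t).Finite := (finite_I h0 h1).subset (J_sub p q S t)

/-- transfer of an inequality `(θ - ε) h ≤ r + C` -/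
theorem stepθ {α β : Type} {P : α → Prop} {Q : β → Prop} {h r : α → ℝ} {h' r' : β → ℝ}
    (hh : ∀ x, 0 ≤ h x) (hr : ∀ x, 0 ≤ r x) {N C θ θ' : ℝ} (hN : 1 ≤ N) (hC : 0 ≤ C) (hθ' : 0 < θ')
    (map : ∀ x, P x → h x ≤ C ∨ ∃ y, Q y ∧ N * h x ≤ h' y + C ∧
      r' y ≤ r x + (N * θ' - θ) * h x + C)
    (H : ∀ ε : ℝ, 0 < ε → ∃ C' : ℝ, ∀ y, Q y → (θ' - ε) * h' y ≤ r' y + C') :
    ∀ ε : ℝ, 0 < ε → ∃ C' : ℝ, ∀ x, P x → (θ - ε) * h x ≤ r x + C' := by
  intro ε hε
  obtain ⟨ε', hε'⟩ : ∃ ε' : ℝ, ε' = min (ε / N) (θ' / 2) := ⟨_, rfl⟩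
  have hε'0 : 0 < ε' := by rw [hε']; exact lt_min (by positivity) (by positivity)
  have h1 : ε' ≤ ε / N := by rw [hε']; exact min_le_left _ _
  have h2 : ε' ≤ θ' / 2 := by rw [hε']; exact min_le_right _ _
  rw [le_div_iff₀ (by linarith)] at h1
  obtain ⟨C', hC'⟩ := H ε' hε'0
  refine ⟨|θ| * C + (max C' 0 + C + θ' * C), fun x hx => ?_⟩
  have hhx := hh x
  have hrx := hr x
  have hm : 0 ≤ max C' 0 := le_max_right _ _
  have hm' : C' ≤ max C' 0 := le_max_left _ _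
  have hθC : 0 ≤ |θ| * C := by positivity
  have hθ'C : 0 ≤ θ' * C := by positivity
  rcases map x hx with h3 | ⟨y, h3, h4, h5⟩
  · have e1 : (θ - ε) * h x ≤ |θ| * h x :=
      mul_le_mul_of_nonneg_right (by linarith [le_abs_self θ]) hhx
    have e2 : |θ| * h x ≤ |θ| * C := mul_le_mul_of_nonneg_left h3 (abs_nonneg _)
    linarith
  · have h6 := hC' y h3
    have h7 : (θ' - ε') * (N * h x - C) ≤ (θ' - ε') * h' y :=
      mul_le_mul_of_nonneg_left (by linarith) (by linarith)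
    have h8 : (θ - N * ε') * h x ≤ r x + C' + C + (θ' - ε') * C := by
      have e : (θ' - ε') * (N * h x - C) =
        (N * θ' - θ) * h x + (θ - N * ε') * h x - (θ' - ε') * C := by ring
      linarith
    have h9 : (θ - ε) * h x ≤ (θ - N * ε') * h x :=
      mul_le_mul_of_nonneg_right (by linarith) hhx
    have h10 : (θ' - ε') * C ≤ θ' * C := mul_le_mul_of_nonneg_right (by linarith) hC
    linarith

/-! ### powers -/

theorem PowAt.mul {p : ℕ} {v : HeightOneSpectrum (𝓞 K)} {x y : K} (hx : PowAt p v x)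
    (hy : PowAt p v y) : PowAt p v (x * y) := by
  obtain ⟨g, hg⟩ := hx
  obtain ⟨h, hh⟩ := hy
  exact ⟨g * h, by rw [map_mul, hg, hh, mul_pow]⟩

theorem PowAt.of_one {p : ℕ} {v : HeightOneSpectrum (𝓞 K)} {x : K} (hx : v.valuation K x = 1) :
    PowAt p v x := ⟨1, by rw [hx, one_pow]⟩

theorem PowAt.of_pow (p : ℕ) (v : HeightOneSpectrum (𝓞 K)) (x : K) : PowAt p v (x ^ p) :=
  ⟨v.valuation K x, map_pow _ _ _⟩

theorem PowAt.pow_of_dvd {p P i : ℕ} {v : HeightOneSpectrum (𝓞 K)} {x : K} (hx : PowAt p v x)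
    (h : P ∣ i * p) : PowAt P v (x ^ i) := by
  obtain ⟨g, hg⟩ := hx
  obtain ⟨c, hc⟩ := h
  refine ⟨g ^ c, ?_⟩
  rw [map_pow, hg, ← pow_mul, ← pow_mul]
  congr 1
  rw [mul_comm p i, hc, mul_comm]

theorem val_one_of_mk {v : HeightOneSpectrum (𝓞 K)} {x : K} (h : FinitePlace.mk v x = 1) :
    v.valuation K x = 1 := by
  have h1 := (mk_le_one_iff v x).1 h.le
  have h2 : ¬ v.valuation K x < 1 := fun h3 => absurd ((mk_lt_one_iff v x).2 h3) (by rw [h]; exact lt_irrefl 1)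
  exact le_antisymm h1 (not_lt.1 h2)

theorem mk_one_of_val {v : HeightOneSpectrum (𝓞 K)} {x : K} (h : v.valuation K x = 1) :
    FinitePlace.mk v x = 1 := by
  have h1 := (mk_le_one_iff v x).2 h.le
  have h2 : ¬ FinitePlace.mk v x < 1 := fun h3 => absurd ((mk_lt_one_iff v x).1 h3) (by rw [h]; exact lt_irrefl 1)
  exact le_antisymm h1 (not_lt.1 h2)

/-- large values are integral -/
theorem intAt_of_large {p q : ℕ} {v : HeightOneSpectrum (𝓞 K)} {x : K} (h : 1 < FinitePlace.mk v x) :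
    IntAt p q v x := by
  have h1 := one_le_fin v h
  refine ⟨fun _ h2 => absurd ((mk_lt_one_iff v x).2 h2) (not_lt.2 h.le), fun _ h2 => ?_⟩
  exact absurd ((mk_lt_one_iff v (1 - x)).2 h2) (not_lt.2 (h.le.trans h1))

end Pool.Agent.N757.SL
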