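import Pool.Agent.N757.SL.Odd

/-!
# Stacky lines: signatures and the equivalence with the abc conjecture
-/

set_option autoImplicit false

namespace Pool.Agent.N757.SL

open NumberField IsDedekindDomain Height Real Polynomial Pool.Agent.N757.RD Pool.Agent.N757.TL

/-- the signatures `(p, q)`: the orders of the points `0` and `1` of the line, where `0` stands for a
cusp. The smallest set of pairs which contains `(0, 0)`, `(k, 2)` for all `k ≥ 3`, `(3, 3)` and `(4, 4)`,
is closed under exchanging the two numbers and under common multiples, and contains with `(p, q)` the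
pair `(a + b, p a)` for all `a, b ≥ 1` with `p a = q b`, and, if `p ≥ 2`, the pair `(p, q (p + 1))` -/
inductive Signature : ℕ → ℕ → Prop
  | cusps : Signature 0 0
  | square (k : ℕ) : 3 ≤ k → Signature k 2
  | cubes : Signature 3 3
  | fourth : Signature 4 4
  | swap {p q : ℕ} : Signature p q → Signature q p
  | multiple {p q : ℕ} (m : ℕ) : 1 ≤ m → Signature p q → Signature (p * m) (q * m)
  | mean {p q : ℕ} (a b : ℕ) : 1 ≤ a → 1 ≤ b → p * a = q * b → Signature p q →
      Signature (a + b) (p * a)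
  | mean' {p q : ℕ} : 2 ≤ p → Signature p q → Signature p (q * (p + 1))

theorem sig_cases {p q : ℕ} (h : Signature p q) :
    (p = 0 ∨ 2 ≤ p) ∧ (q = 0 ∨ 2 ≤ q) ∧ ¬ (p = 2 ∧ q = 2) := by
  induction h with
  | cusps => omega
  | square k hk => omega
  | cubes => omega
  | fourth => omega
  | swap _ ih => omega
  | @multiple p q m hm _ ih =>
    obtain ⟨h1, h2, h3⟩ := ih
    refine ⟨?_, ?_, ?_⟩
    · rcases h1 with rfl | h1
      · left; ring
      · right; nlinarith
    · rcases h2 with rfl | h2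
      · left; ring
      · right; nlinarith
    · rintro ⟨h4, h5⟩
      have hp : 2 ≤ p := by
        rcases h1 with rfl | h1
        · omega
        · exact h1
      have hq : 2 ≤ q := by
        rcases h2 with rfl | h2
        · omega
        · exact h2
      exact h3 ⟨by nlinarith, by nlinarith⟩
  | @mean p q a b ha hb hab _ ih =>
    obtain ⟨h1, h2, h3⟩ := ih
    refine ⟨by omega, ?_, ?_⟩
    · rcases h1 with rfl | h1
      · left; ring
      · right; nlinarith
    · rintro ⟨h4, h5⟩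
      have ha1 : a = 1 := by omega
      have hb1 : b = 1 := by omega
      rw [ha1, mul_one] at h5
      rw [ha1, hb1, mul_one, mul_one] at hab
      exact h3 ⟨h5, by omega⟩
  | @mean' p q hp _ ih =>
    obtain ⟨h1, h2, h3⟩ := ih
    refine ⟨h1, ?_, ?_⟩
    · rcases h2 with rfl | h2
      · left; ring
      · right; nlinarith
    · rintro ⟨rfl, h5⟩
      omega

theorem inv_le_half {p : ℕ} (h : p = 0 ∨ 2 ≤ p) : 1 / (p : ℝ) ≤ 1 / 2 := by
  rcases h with rfl | h
  · norm_num
  · exact one_div_le_one_div_of_le (by norm_num) (by exact_mod_cast h)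

theorem sig_pos {p q : ℕ} (h : Signature p q) : 0 < 1 - 1 / (p : ℝ) - 1 / (q : ℝ) := by
  obtain ⟨h1, h2, h3⟩ := sig_cases h
  have h4 := inv_le_half h1
  have h5 := inv_le_half h2
  have key : ∀ n : ℕ, (n = 0 ∨ 2 ≤ n) → n ≠ 2 → 1 / (n : ℝ) < 1 / 2 := by
    intro n hn hn2
    rcases hn with rfl | hn
    · norm_num
    · exact one_div_lt_one_div_of_lt (by norm_num) (by exact_mod_cast (by omega : 2 < n))
  by_cases hp : p = 2
  · have := key q h2 (fun hq => h3 ⟨hp, hq⟩)
    linarith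
  · have := key p h1 hp
    linarith

variable {K : Type} [Field K] [NumberField K]

theorem some_zero (S : Set (HeightOneSpectrum (𝓞 K))) (h : Some' 0 0 S) : ABC K := by
  obtain ⟨T, δ, hδ, h⟩ := h
  apply ABn_to_ABC T
  refine ⟨δ, hδ, fun ε hε => ?_⟩
  obtain ⟨C, hC⟩ := h (ε / (1 + ε)) (by positivity)
  refine ⟨(1 + ε) * C, ?_⟩
  rintro y ⟨hy0, hy1, hy⟩
  have h1 := hC y⁻¹ ⟨inv_ne_zero hy0, fun h1 => hy1 (inv_eq_one.1 h1), fun v _ =>
    ⟨fun h => absurd rfl h, fun h => absurd rfl h⟩, fun v hv => by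
      rw [map_inv₀, ← div_eq_mul_inv, one_le_div ((av v).pos hy0)]
      exact (hy v hv).le⟩
  rw [D_inv] at h1
  have h2 : W (J 0 0 S y⁻¹) ≤ R y := by
    rw [← R_inv hy0]
    exact W_mono (J_sub 0 0 S _) (finite_I (inv_ne_zero hy0) fun h1 => hy1 (inv_eq_one.1 h1))
  have h3 : (1 : ℝ) - 1 / ((0 : ℕ) : ℝ) - 1 / ((0 : ℕ) : ℝ) - ε / (1 + ε) = 1 / (1 + ε) := by
    have : (1 + ε) ≠ 0 := by positivity
    field_simp
    simp
  rw [h3] at h1
  have h4 : D y = (1 + ε) * (1 / (1 + ε) * D y) := by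
    have : (1 + ε) ≠ 0 := by positivity
    field_simp
  rw [h4]
  calc (1 + ε) * (1 / (1 + ε) * D y) ≤ (1 + ε) * (R y + C) :=
        mul_le_mul_of_nonneg_left (by linarith) (by linarith)
    _ = _ := by ring

theorem sig_zero (n : ℕ) (hn : 2 ≤ n) (S : Set (HeightOneSpectrum (𝓞 K))) (h : Some' n 0 S) :
    Some' 0 0 S := by
  have h1 : Some' (1 + (n - 1)) (0 * 1) S := by
    rw [show 1 + (n - 1) = n by omega, zero_mul]
    exact h
  refine some_mean 1 (n - 1) le_rfl (by omega) (by ring) ?_ S h1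
  rw [show 1 + (n - 1) = n by omega]
  have := inv_le_half (p := n) (Or.inr hn)
  have e : 1 / ((0 * 1 : ℕ) : ℝ) = 0 := by simp
  rw [e]
  linarith

theorem converse {p q : ℕ} (hpq : Signature p q) (S : Set (HeightOneSpectrum (𝓞 K))) :
    Some' p q S → ABC K := by
  induction hpq with
  | cusps => exact some_zero S
  | square k hk =>
    intro h
    apply some_zero S
    rcases Nat.even_or_odd' k with ⟨i, rfl | rfl⟩
    · refine sig_zero i (by omega) S (some_square ?_ S h)
      exact sig_pos (Signature.square (2 * i) hk)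
    · exact sig_zero (2 * i + 1) (by omega) S (some_odd (by omega) S h)
  | cubes => exact fun h => some_zero S (some_cubes S h)
  | fourth => exact fun h => some_zero S (some_fourth S h)
  | @swap p q hs ih => exact fun h => ih (some_swap (sig_pos hs.swap) S h)
  | @multiple p q m hm hs ih => exact fun h => ih (some_multiple m hm (sig_pos (hs.multiple m hm)) S h)
  | @mean p q a b ha hb hab hs ih =>
    exact fun h => ih (some_mean a b ha hb hab (sig_pos (hs.mean a b ha hb hab)) S h)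
  | @mean' p q hp hs ih => exact fun h => ih (some_mean' hp (sig_pos (hs.mean' hp)) S h)

/-! ### From abc to the stacky lines -/

/-- an absolute value less than one, with valuation divisible by `p`, is at most `N(v) ^ (- p)` -/
theorem logN_pow_le (v : HeightOneSpectrum (𝓞 K)) {y : K} (hy : y ≠ 0) {p : ℕ}
    (h : v.valuation K y < 1) (hpow : PowAt p v y) :
    p * Real.log (Ideal.absNorm v.asIdeal : ℝ) ≤ Real.log (FinitePlace.mk v y⁻¹) := by
  have hN := HeightOneSpectrum.one_lt_absNorm_nnreal v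
  have hN0 := HeightOneSpectrum.absNorm_ne_zero v
  have hval : FinitePlace.mk v y⁻¹ = (WithZeroMulInt.toNNReal hN0 (v.valuation K y⁻¹) : ℝ) := by
    rw [FinitePlace.mk_apply, FinitePlace.norm_embedding']
  obtain ⟨g, hg⟩ := hpow
  have hv : v.valuation K y ≠ 0 := (v.valuation K).ne_zero_iff.2 hy
  have hp : p ≠ 0 := by
    rintro rfl
    rw [hg, pow_zero] at h
    exact lt_irrefl _ h
  have hg0 : g ≠ 0 := by
    rintro rfl
    rw [zero_pow hp] at hg
    exact hv hg
  obtain ⟨n, hn⟩ : ∃ n : ℤ, g = WithZero.exp n := ⟨WithZero.log g, (WithZero.exp_log hg0).symm⟩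
  have hgn : v.valuation K y = WithZero.exp (p * n : ℤ) := by
    rw [hg, hn, ← WithZero.exp_nsmul]
    simp
  have hn1 : n ≤ -1 := by
    rw [hgn, ← WithZero.exp_zero, WithZero.exp_lt_exp] at h
    by_contra hcon
    push Not at hcon
    have h1 : 0 ≤ (p : ℤ) * n := mul_nonneg (by positivity) (by omega)
    omega
  have h3 : WithZero.exp (p : ℤ) ≤ v.valuation K y⁻¹ := by
    rw [map_inv₀, hgn, ← WithZero.exp_neg, WithZero.exp_le_exp]
    have hp0 : (0 : ℤ) < p := by positivity
    nlinarith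
  have h4 : WithZeroMulInt.toNNReal hN0 (WithZero.exp (p : ℤ)) ≤
      WithZeroMulInt.toNNReal hN0 (v.valuation K y⁻¹) :=
    (WithZeroMulInt.toNNReal_strictMono hN).monotone h3
  have h5 : WithZeroMulInt.toNNReal hN0 (WithZero.exp (p : ℤ)) =
      (Ideal.absNorm v.asIdeal : NNReal) ^ p := by
    rw [WithZeroMulInt.toNNReal_neg_apply _ (WithZero.exp_ne_zero)]
    have : (WithZero.unzero (WithZero.exp_ne_zero (a := (p : ℤ)))).toAdd = p := rfl
    rw [this, zpow_natCast]
  rw [hval, ← Real.log_pow]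
  have hNpos : (0 : ℝ) < Ideal.absNorm v.asIdeal := by
    exact_mod_cast (zero_lt_one.trans (HeightOneSpectrum.one_lt_absNorm v))
  refine Real.log_le_log (by positivity) ?_
  rw [h5] at h4
  exact_mod_cast h4

/-- the primes at which the valuation of `y` is positive and divisible by `p` -/
theorem W_pow_le {y : K} (hy : y ≠ 0) {p : ℕ} (hp : p ≠ 0) {A : Set (HeightOneSpectrum (𝓞 K))}
    (hA : ∀ v ∈ A, v.valuation K y < 1 ∧ PowAt p v y) : A.Finite ∧ W A ≤ 1 / p * D y := by
  have hfin : A.Finite := (finite_lows hy).subset fun v hv => (mk_lt_one_iff v y).2 (hA v hv).1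
  refine ⟨hfin, ?_⟩
  have hp0 : (0 : ℝ) < p := by
    have : 0 < p := Nat.pos_of_ne_zero hp
    exact_mod_cast this
  rw [W_eq hfin, ← D_inv y]
  have h1 : ∀ v ∈ hfin.toFinset, Real.log (Ideal.absNorm v.asIdeal : ℝ) ≤
      1 / p * log⁺ (FinitePlace.mk v y⁻¹) := by
    intro v hv
    rw [Set.Finite.mem_toFinset] at hv
    have h2 := logN_pow_le v hy (hA v hv).1 (hA v hv).2
    have h3 : Real.log (FinitePlace.mk v y⁻¹) ≤ log⁺ (FinitePlace.mk v y⁻¹) := le_max_right _ _
    rw [one_div, ← div_eq_inv_mul, le_div_iff₀ hp0, mul_comm]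
    exact h2.trans h3
  refine (Finset.sum_le_sum h1).trans ?_
  rw [← Finset.mul_sum]
  exact mul_le_mul_of_nonneg_left (sum_fin_le_D hfin.toFinset y⁻¹) (by positivity)

/-- the part of the radical at an orbifold point -/
theorem part_le {y : K} (hy : y ≠ 0) (p : ℕ) {B A : Set (HeightOneSpectrum (𝓞 K))} (hB : B.Finite)
    (hA : A.Finite) (h : ∀ v ∈ A, v ∈ B ∨ (v.valuation K y < 1 ∧ (p ≠ 0 ∧ PowAt p v y))) :
    W A ≤ W B + 1 / p * D y := by
  by_cases hp : p = 0
  · have hsub : A ⊆ B := fun v hv => (h v hv).resolve_right fun h1 => h1.2.1 hp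
    have := W_mono hsub hB
    rw [hp]
    simpa using this
  · obtain ⟨h1, h2⟩ := W_pow_le hy hp (A := {v | v ∈ A ∧ v.valuation K y < 1 ∧ PowAt p v y})
      (fun v hv => hv.2)
    have hsub : A ⊆ B ∪ {v | v ∈ A ∧ v.valuation K y < 1 ∧ PowAt p v y} := by
      intro v hv
      rcases h v hv with h3 | h3
      · exact Or.inl h3
      · exact Or.inr ⟨hv, h3.1, h3.2.2⟩
    have h3 := W_mono hsub (hB.union h1)
    have h4 := W_union hB h1
    linarith

theorem abc_ineq (h : ABC K) (p q : ℕ) {S : Set (HeightOneSpectrum (𝓞 K))} (hS : S.Finite)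
    (T : Finset (Pl K)) (δ : ℝ) : Ineq p q S T δ := by
  intro ε hε
  obtain ⟨C, hC⟩ := h ε hε
  have hq0 : (0 : ℝ) ≤ 1 / (q : ℝ) := by positivity
  have hc1 := c1_nonneg
  have hd := dg_pos (K := K)
  refine ⟨W S + 1 / (q : ℝ) * (c1 * dg K) + |C|, ?_⟩
  rintro t ⟨ht0, ht1, hint, -⟩
  have ht1' : (1 : K) - t ≠ 0 := sub_ne_zero.2 ht1.symm
  have h1 := hC t ⟨ht0, ht1⟩
  have hD := D_nonneg t
  have fJ := finite_J (p := p) (q := q) (S := S) ht0 ht1
  have fI := finite_I ht0 ht1
  -- the primes dividing `1 - t`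
  obtain ⟨A₁, hA₁⟩ : ∃ A₁ : Set (HeightOneSpectrum (𝓞 K)),
    A₁ = {v | v ∈ J p q S t ∪ S ∨ (v ∈ I t ∧ v.valuation K t < 1 ∧ (p ≠ 0 ∧ PowAt p v t))} := ⟨_, rfl⟩
  have fA₁ : A₁.Finite := by
    rw [hA₁]
    exact ((fJ.union hS).union fI).subset fun v hv => hv.imp id fun h2 => h2.1
  have hR : R t ≤ W A₁ + 1 / (q : ℝ) * D (1 - t) := by
    refine part_le ht1' q fA₁ fI ?_
    intro v hv
    by_cases hvS : v ∈ S
    · left; rw [hA₁]; exact Or.inl (Or.inr hvS)
    obtain ⟨i1, i2⟩ := hint v hvS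
    rcases lt_trichotomy (v.valuation K t) 1 with h2 | h2 | h2
    · left
      rw [hA₁]
      by_cases hp : p = 0
      · exact Or.inl (Or.inl ⟨hvS, Or.inr (Or.inl ⟨hp, h2⟩)⟩)
      · exact Or.inr ⟨hv, h2, hp, i1 hp h2⟩
    · have h3 : v.valuation K (1 - t) < 1 := by
        have h4 : FinitePlace.mk v (1 - t) ≠ 1 := by
          rcases hv with h5 | h5
          · exact absurd (mk_one_of_val h2) h5
          · exact h5
        have h5 : FinitePlace.mk v (1 - t) ≤ 1 := by
          have h6 := fin_add_le v 1 (-t)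
          rw [← sub_eq_add_neg, map_neg_eq_map, map_one, mk_one_of_val h2, max_self] at h6
          exact h6
        exact (mk_lt_one_iff v _).1 (lt_of_le_of_ne h5 h4)
      by_cases hq : q = 0
      · left; rw [hA₁]
        exact Or.inl (Or.inl ⟨hvS, Or.inr (Or.inr ⟨hq, h3⟩)⟩)
      · right
        exact ⟨h3, hq, i2 hq h3⟩
    · left; rw [hA₁]
      exact Or.inl (Or.inl ⟨hvS, Or.inl h2⟩)
  have hA : W A₁ ≤ W (J p q S t ∪ S) + 1 / (p : ℝ) * D t := by
    refine part_le ht0 p (fJ.union hS) fA₁ ?_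
    intro v hv
    rw [hA₁] at hv
    rcases hv with h2 | h2
    · exact Or.inl h2
    · exact Or.inr h2.2
  have hJS := W_union fJ hS
  have hD1 := D_one_sub_le' t
  have h2 : 1 / (q : ℝ) * D (1 - t) ≤ 1 / (q : ℝ) * (D t + c1 * dg K) :=
    mul_le_mul_of_nonneg_left hD1 hq0
  have h3 : R t ≤ W (J p q S t) + W S + 1 / (p : ℝ) * D t + 1 / (q : ℝ) * (D t + c1 * dg K) := by
    linarith
  have hRn := R_nonneg t
  -- `D t ≤ (1 + ε) R t + C`
  have h4 : (1 - ε) * D t ≤ R t + |C| := by
    have h5 : (1 - ε) * D t ≤ D t / (1 + ε) := by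
      rw [le_div_iff₀ (by linarith)]
      nlinarith [mul_nonneg (sq_nonneg ε) hD]
    have h6 : D t / (1 + ε) ≤ R t + |C| := by
      rw [div_le_iff₀ (by linarith)]
      have h7 := le_abs_self C
      have h8 : 0 ≤ |C| * ε := by positivity
      nlinarith
    linarith
  have e : (1 - 1 / (p : ℝ) - 1 / (q : ℝ) - ε) * D t =
      (1 - ε) * D t - 1 / (p : ℝ) * D t - 1 / (q : ℝ) * D t := by ring
  rw [e]
  linarith

/-- **Stacky lines and the abc conjecture.** -/
theorem main {p q : ℕ} (hpq : Signature p q) {S : Set (HeightOneSpectrum (𝓞 K))} (hS : S.Finite)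
    (T : Finset (Pl K)) {δ : ℝ} (hδ : 0 < δ) : ABC K ↔ Ineq p q S T δ :=
  ⟨fun h => abc_ineq h p q hS T δ, fun h => converse hpq S ⟨T, δ, hδ, h⟩⟩

end Pool.Agent.N757.SL
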