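import Pool.Agent.N757.SL.Cover

/-!
# Stacky lines: the simple covers
-/

set_option autoImplicit false

namespace Pool.Agent.N757.SL

open NumberField IsDedekindDomain Height Real Polynomial Pool.Agent.N757.RD Pool.Agent.N757.TL

variable {K : Type} [Field K] [NumberField K]

/-- the inequality for some `T`, `δ` -/
def Some' (p q : ℕ) (S : Set (HeightOneSpectrum (𝓞 K))) : Prop :=
  ∃ (T : Finset (Pl K)) (δ : ℝ), 0 < δ ∧ Ineq p q S T δ

theorem cover' {p q P Q N : ℕ} {F G U : ℤ[X]} (hN : 1 ≤ N) (dF : F.natDegree ≤ N)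
    (cF : F.coeff N ≠ 0) (dG : G.natDegree ≤ N - 1) (hU : U ≠ 0)
    (hcop : ∀ x : ℂ, aeval x F = 0 → aeval x G ≠ 0)
    (hF : Comp p q P F) (hE : Comp p q Q (G - F)) (hG : Csp p q G U)
    (hθ : 0 < 1 - 1 / (P : ℝ) - 1 / (Q : ℝ))
    (hcount : (U.natDegree : ℝ) ≤
      N * (1 - 1 / (P : ℝ) - 1 / (Q : ℝ)) - (1 - 1 / (p : ℝ) - 1 / (q : ℝ)))
    (S : Set (HeightOneSpectrum (𝓞 K))) (h : Some' P Q S) : Some' p q S := by
  obtain ⟨T, δ, hδ, h⟩ := h
  exact cover hN dF cF dG hU hcop hF hE hG hθ hcount S T hδ h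

/-- `t ↦ 1 - t` -/
theorem some_swap {p q : ℕ} (hθ : 0 < 1 - 1 / (q : ℝ) - 1 / (p : ℝ))
    (S : Set (HeightOneSpectrum (𝓞 K))) (h : Some' q p S) : Some' p q S := by
  refine cover' (F := 1 - X) (G := 1) (U := 1) (N := 1) le_rfl ?_ ?_ ?_ one_ne_zero ?_ ?_ ?_ ?_ hθ ?_ S h
  · compute_degree
  · simp [coeff_one, coeff_X]
  · simp
  · intro x _
    simp
  · exact ⟨1, 0, 1, 1, one_ne_zero, by simp, Or.inl rfl, Or.inr ⟨Iff.rfl, ⟨1, by ring⟩⟩⟩
  · exact ⟨1, 1, 0, 1, one_ne_zero, by simp, Or.inr ⟨Iff.rfl, ⟨1, by ring⟩⟩, Or.inl rfl⟩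
  · exact ⟨1, 0, 0, 0, one_ne_zero, by simp, Or.inl rfl, Or.inl rfl⟩
  · rw [natDegree_one]
    push_cast
    linarith

/-- common multiples -/
theorem some_multiple {p q : ℕ} (m : ℕ) (hm : 1 ≤ m)
    (hθ : 0 < 1 - 1 / ((p * m : ℕ) : ℝ) - 1 / ((q * m : ℕ) : ℝ))
    (S : Set (HeightOneSpectrum (𝓞 K))) (h : Some' (p * m) (q * m) S) : Some' p q S := by
  have hm0 : (m : ℝ) ≠ 0 := by
    have : m ≠ 0 := by omega
    exact_mod_cast this
  have hXm : ((X : ℤ[X]) - 1) ^ m = X ^ m - (X ^ m - (X - 1) ^ m) := by ring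
  have hdeg : (X ^ m - (X - 1) ^ m : ℤ[X]).natDegree ≤ m - 1 := by
    have h1 : (X ^ m - (X - 1) ^ m : ℤ[X]).degree < m := by
      have h2 : ((X : ℤ[X]) ^ m).degree = m := degree_X_pow m
      have h3 : (((X : ℤ[X]) - 1) ^ m).degree = m := by
        rw [degree_pow, show (1 : ℤ[X]) = C 1 by simp, degree_X_sub_C]
        simp
      have h4 : ((X : ℤ[X]) ^ m).leadingCoeff = (((X : ℤ[X]) - 1) ^ m).leadingCoeff := by
        rw [(monic_X_pow m).leadingCoeff, show (1 : ℤ[X]) = C 1 by simp,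
          ((monic_X_sub_C (1 : ℤ)).pow m).leadingCoeff]
      have h5 := degree_sub_lt (h2.trans h3.symm) (pow_ne_zero m X_ne_zero) h4
      rwa [h2] at h5
    by_cases h0 : (X ^ m - (X - 1) ^ m : ℤ[X]) = 0
    · rw [h0]; simp
    · rw [degree_eq_natDegree h0] at h1
      have : (X ^ m - (X - 1) ^ m : ℤ[X]).natDegree < m := by exact_mod_cast h1
      omega
  have hcop : ∀ x : ℂ, aeval x (X ^ m : ℤ[X]) = 0 → aeval x (X ^ m - (X - 1) ^ m : ℤ[X]) ≠ 0 := by
    intro x hx
    rw [map_pow, aeval_X] at hx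
    have hx0 : x = 0 := pow_eq_zero_iff (by omega) |>.1 hx
    rw [map_sub, map_pow, map_pow, map_sub, aeval_X, map_one, hx0, zero_pow (by omega), zero_sub,
      zero_sub]
    exact neg_ne_zero.2 (pow_ne_zero _ (neg_ne_zero.2 one_ne_zero))
  refine cover' (F := X ^ m) (G := X ^ m - (X - 1) ^ m) (U := X ^ m - (X - 1) ^ m) (N := m) hm
    ?_ ?_ hdeg ?_ hcop ?_ ?_ ?_ hθ ?_ S h
  · rw [natDegree_X_pow]
  · rw [coeff_X_pow, if_pos rfl]; exact one_ne_zero
  · intro h0
    have := hcop 0 (by rw [map_pow, aeval_X, zero_pow (by omega)])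
    rw [h0, map_zero] at this
    exact this rfl
  · refine ⟨1, m, 0, 1, one_ne_zero, by simp, Or.inr ⟨?_, ⟨1, by ring⟩⟩, Or.inl rfl⟩
    rw [mul_eq_zero]
    constructor
    · rintro (h1 | h1)
      · exact h1
      · omega
    · exact fun h1 => Or.inl h1
  · refine ⟨-(-1) ^ m, 0, m, 1, neg_ne_zero.2 (pow_ne_zero _ (by norm_num)), ?_, Or.inl rfl,
      Or.inr ⟨?_, ⟨1, by ring⟩⟩⟩
    · rw [one_pow, mul_one, pow_zero, mul_one, C_neg, C_pow, C_neg, C_1]
      have : ((X : ℤ[X]) - 1) ^ m = (-1) ^ m * (1 - X) ^ m := by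
        rw [← mul_pow]; ring
      rw [this]; ring
    · rw [mul_eq_zero]
      constructor
      · rintro (h1 | h1)
        · exact h1
        · omega
      · exact fun h1 => Or.inl h1
  · exact ⟨1, 0, 0, 1, one_ne_zero, by simp, Or.inl rfl, Or.inl rfl⟩
  · have h1 : ((X ^ m - (X - 1) ^ m : ℤ[X]).natDegree : ℝ) ≤ m - 1 := by
      have : ((X ^ m - (X - 1) ^ m : ℤ[X]).natDegree : ℝ) ≤ ((m - 1 : ℕ) : ℝ) := by
        exact_mod_cast hdeg
      rwa [Nat.cast_sub hm, Nat.cast_one] at this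
    have e : (m : ℝ) * (1 - 1 / ((p * m : ℕ) : ℝ) - 1 / ((q * m : ℕ) : ℝ)) -
        (1 - 1 / (p : ℝ) - 1 / (q : ℝ)) = m - 1 := by
      push_cast
      have e1 : (m : ℝ) * (1 / (p * m)) = 1 / p := by
        by_cases hp : (p : ℝ) = 0
        · rw [hp]; simp
        · field_simp
      have e2 : (m : ℝ) * (1 / (q * m)) = 1 / q := by
        by_cases hq : (q : ℝ) = 0
        · rw [hq]; simp
        · field_simp
      rw [mul_sub, mul_sub, e1, e2]
      ring
    rw [e]
    exact h1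

/-- from `(k, 0)` to `(2 k, 2)` -/
theorem some_square {k : ℕ} (hθ : 0 < 1 - 1 / ((2 * k : ℕ) : ℝ) - 1 / ((2 : ℕ) : ℝ))
    (S : Set (HeightOneSpectrum (𝓞 K))) (h : Some' (2 * k) 2 S) : Some' k 0 S := by
  refine cover' (F := X ^ 2) (G := C (-4) * (1 - X)) (U := 1) (N := 2) (by norm_num) ?_ ?_ ?_
    one_ne_zero ?_ ?_ ?_ ?_ hθ ?_ S h
  · compute_degree
  · rw [coeff_X_pow, if_pos rfl]; exact one_ne_zero
  · compute_degree
  · intro x hx
    rw [map_pow, aeval_X] at hx
    have hx0 : x = 0 := pow_eq_zero_iff two_ne_zero |>.1 hx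
    rw [map_mul, aeval_C, map_sub, map_one, aeval_X, hx0]
    simp
  · exact ⟨1, 2, 0, 1, one_ne_zero, by simp, Or.inr ⟨by omega, ⟨1, by ring⟩⟩, Or.inl rfl⟩
  · refine ⟨-1, 0, 0, X - 2, by norm_num, ?_, Or.inl rfl, Or.inl rfl⟩
    rw [C_neg, C_neg, C_1, C_ofNat]
    ring
  · exact ⟨-4, 0, 1, 0, by norm_num, by simp, Or.inl rfl, Or.inr rfl⟩
  · rw [natDegree_one]
    push_cast
    by_cases hk : (k : ℝ) = 0
    · rw [hk]; norm_num
    · apply le_of_eq
      field_simp
      ring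

/-- from `(0, 0)` to `(3, 3)` -/
theorem some_cubes (S : Set (HeightOneSpectrum (𝓞 K))) (h : Some' 3 3 S) : Some' 0 0 S := by
  refine cover' (F := (X ^ 3 + 3 * X ^ 2 - 6 * X + 1) ^ 3)
    (G := C (-27) * X * (1 - X) * (X ^ 2 - X + 1) ^ 3) (U := X ^ 2 - X + 1) (N := 9) (by norm_num)
    ?_ ?_ ?_ ?_ ?_ ?_ ?_ ?_ (by norm_num) ?_ S h
  · compute_degree
  · have : ((X ^ 3 + 3 * X ^ 2 - 6 * X + 1 : ℤ[X]) ^ 3).coeff 9 = 1 := by
      have h1 := coeff_pow_of_natDegree_le (p := (X ^ 3 + 3 * X ^ 2 - 6 * X + 1 : ℤ[X])) (n := 3)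
        (m := 3) (by compute_degree)
      rw [show 9 = 3 * 3 by norm_num, h1]
      have : (X ^ 3 + 3 * X ^ 2 - 6 * X + 1 : ℤ[X]).coeff 3 = 1 := by compute_degree!
      rw [this]; norm_num
    rw [this]; exact one_ne_zero
  · compute_degree
  · intro h0
    have := congrArg (eval 0) h0
    simp at this
  · intro x hx
    simp only [map_pow, map_add, map_sub, map_mul, aeval_X, map_one, map_ofNat] at hx
    have h1 := pow_eq_zero_iff (by norm_num) |>.1 hx
    simp only [map_pow, map_add, map_sub, map_mul, aeval_X, map_one, aeval_C]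
    intro h2
    have h3 : ((algebraMap ℤ ℂ) (-27)) ≠ 0 := by simp
    rcases mul_eq_zero.1 h2 with h4 | h4
    · rcases mul_eq_zero.1 h4 with h5 | h5
      · rcases mul_eq_zero.1 h5 with h6 | h6
        · exact h3 h6
        · rw [h6] at h1; norm_num at h1
      · have h6 : x = 1 := by linear_combination -h5
        rw [h6] at h1; norm_num at h1
    · have h5 := pow_eq_zero_iff (by norm_num) |>.1 h4
      have h6 : -3 * (x + 1) = 0 := by linear_combination h1 - (x + 4) * h5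
      have h7 : x = -1 := by
        have := (mul_eq_zero.1 h6).resolve_left (by norm_num)
        linear_combination this
      rw [h7] at h5; norm_num at h5
  · exact ⟨1, 0, 0, X ^ 3 + 3 * X ^ 2 - 6 * X + 1, one_ne_zero, by simp, Or.inl rfl, Or.inl rfl⟩
  · refine ⟨-1, 0, 0, X ^ 3 - 6 * X ^ 2 + 3 * X + 1, by norm_num, ?_, Or.inl rfl, Or.inl rfl⟩
    rw [C_neg, C_neg, C_1, C_ofNat]
    ring
  · exact ⟨-27, 1, 1, 3, by norm_num, by simp, Or.inr rfl, Or.inr rfl⟩
  · have : ((X ^ 2 - X + 1 : ℤ[X]).natDegree : ℝ) ≤ 2 := by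
      have : (X ^ 2 - X + 1 : ℤ[X]).natDegree ≤ 2 := by compute_degree
      exact_mod_cast this
    norm_num
    norm_num at this
    linarith

/-- the polynomial `s` -/
noncomputable def sp : ℤ[X] := (X - 1) ^ 4 - 6 * (X - 1) ^ 2 + 1

/-- the polynomial `t` -/
noncomputable def tp : ℤ[X] := 4 * (X - 1) * (X - 2) * X

/-- the polynomial `q` -/
noncomputable def qp : ℤ[X] := X ^ 2 - 2 * X + 2

theorem stq : sp ^ 2 + tp ^ 2 = qp ^ 4 := by
  unfold sp tp qp
  ring

/-- from `(0, 0)` to `(4, 4)` -/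
theorem some_fourth (S : Set (HeightOneSpectrum (𝓞 K))) (h : Some' 4 4 S) : Some' 0 0 S := by
  have ds : sp.natDegree ≤ 4 := by unfold sp; compute_degree
  have dt : tp.natDegree ≤ 3 := by unfold tp; compute_degree
  have dq : qp.natDegree ≤ 2 := by unfold qp; compute_degree
  have cs : sp.coeff 4 = 1 := by
    have e : sp = X ^ 4 - 4 * X ^ 3 + 8 * X - 4 := by unfold sp; ring
    rw [e]
    compute_degree!
  have es : ∀ x : ℂ, aeval x sp = (x - 1) ^ 4 - 6 * (x - 1) ^ 2 + 1 := fun x => by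
    unfold sp; simp only [map_sub, map_add, map_mul, map_pow, aeval_X, map_one, map_ofNat]
  have et : ∀ x : ℂ, aeval x tp = 4 * (x - 1) * (x - 2) * x := fun x => by
    unfold tp; simp only [map_sub, map_add, map_mul, map_pow, aeval_X, map_one, map_ofNat]
  have eq' : ∀ x : ℂ, aeval x qp = x ^ 2 - 2 * x + 2 := fun x => by
    unfold qp; simp only [map_sub, map_add, map_mul, map_pow, aeval_X, map_one, map_ofNat]
  have dst : (sp + tp).natDegree ≤ 4 := natDegree_add_le_of_degree_le ds (by omega)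
  have cst : (sp + tp).coeff 4 = 1 := by
    rw [coeff_add, cs, coeff_eq_zero_of_natDegree_lt (show tp.natDegree < 4 by omega), add_zero]
  refine cover' (F := (sp + tp) ^ 4) (G := 8 * sp * tp * qp ^ 4) (U := sp * (X - 2) * qp) (N := 16)
    (by norm_num) ?_ ?_ ?_ ?_ ?_ ?_ ?_ ?_ (by norm_num) ?_ S h
  · exact natDegree_pow_le_of_le 4 dst
  · have h1 := coeff_pow_of_natDegree_le (p := sp + tp) (n := 4) (m := 4) dst
    rw [show 16 = 4 * 4 by norm_num, h1, cst]
    norm_num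
  · have h1 : (8 * sp).natDegree ≤ 4 := by
      have : (8 : ℤ[X]) = C 8 := by simp
      rw [this]
      exact (natDegree_C_mul_le 8 sp).trans ds
    exact natDegree_mul_le_of_le (natDegree_mul_le_of_le h1 dt)
      (natDegree_pow_le_of_le 4 dq)
  · intro h0
    have := congrArg (eval 0) h0
    unfold sp qp at this
    simp at this
  · intro x hx
    rw [map_pow, map_add] at hx
    have h1 := pow_eq_zero_iff (by norm_num) |>.1 hx
    have h3 := congrArg (aeval x) stq
    rw [map_add, map_pow, map_pow, map_pow] at h3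
    rw [map_mul, map_mul, map_mul, map_pow, map_ofNat]
    have key : aeval x tp ≠ 0 ∨ aeval x sp ≠ 0 := by
      by_contra hcon
      push Not at hcon
      obtain ⟨h4, h5⟩ := hcon
      rw [h4, h5] at h3
      have h6 : aeval x qp = 0 := by
        have : (aeval x qp) ^ 4 = 0 := by rw [← h3]; ring
        exact pow_eq_zero_iff (by norm_num) |>.1 this
      rw [et] at h4
      rw [eq'] at h6
      rcases mul_eq_zero.1 h4 with h7 | h7
      · rcases mul_eq_zero.1 h7 with h8 | h8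
        · have h9 : x = 1 := by
            have := (mul_eq_zero.1 h8).resolve_left (by norm_num)
            linear_combination this
          rw [h9] at h6; norm_num at h6
        · have h9 : x = 2 := by linear_combination h8
          rw [h9] at h6; norm_num at h6
      · rw [h7] at h6; norm_num at h6
    have hs : aeval x sp = -aeval x tp := by linear_combination h1
    have ht0 : aeval x tp ≠ 0 := by
      rcases key with h4 | h4
      · exact h4
      · intro h5
        rw [hs, h5, neg_zero] at h4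
        exact h4 rfl
    have hs0 : aeval x sp ≠ 0 := by rw [hs]; exact neg_ne_zero.2 ht0
    have hq0 : aeval x qp ≠ 0 := by
      intro h4
      rw [hs, h4, neg_sq] at h3
      have h5 : (aeval x tp) ^ 2 = 0 := by linear_combination h3 / 2
      exact ht0 (pow_eq_zero_iff two_ne_zero |>.1 h5)
    exact mul_ne_zero (mul_ne_zero (mul_ne_zero (by norm_num) hs0) ht0) (pow_ne_zero _ hq0)
  · exact ⟨1, 0, 0, sp + tp, one_ne_zero, by simp, Or.inl rfl, Or.inl rfl⟩
  · refine ⟨-1, 0, 0, sp - tp, by norm_num, ?_, Or.inl rfl, Or.inl rfl⟩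
    have h3 := stq
    rw [C_neg, C_1]
    linear_combination (-8 * sp * tp) * h3
  · refine ⟨-32, 1, 1, 4, by norm_num, ?_, Or.inr rfl, Or.inr rfl⟩
    refine ⟨(sp * (X - 2)) ^ 3, ?_⟩
    rw [C_neg, C_ofNat]
    unfold tp
    ring
  · have h1 : (sp * (X - 2) * qp).natDegree ≤ 7 := by
      refine natDegree_mul_le_of_le (m := 5) (n := 2) (natDegree_mul_le_of_le (m := 4) (n := 1) ds ?_) dq
      compute_degree
    have h2 : ((sp * (X - 2) * qp).natDegree : ℝ) ≤ 7 := by exact_mod_cast h1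
    norm_num
    norm_num at h2
    linarith

end Pool.Agent.N757.SL
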