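import Pool.Agent.N757.SL.Maps

/-!
# Stacky lines: the covers from the weighted arithmetic and geometric means
-/

set_option autoImplicit false

namespace Pool.Agent.N757.SL

open NumberField IsDedekindDomain Height Real Polynomial Pool.Agent.N757.RD Pool.Agent.N757.TL

/-- `(w + c) ^ n = w ^ n + n w ^ (n - 1) c + c² T` -/
def TTr {R : Type} [CommRing R] (w c : R) : ℕ → R
  | 0 => 0
  | n + 1 => (w + c) * TTr w c n + n * w ^ (n - 1)

theorem TTr_spec {R : Type} [CommRing R] (w c : R) (n : ℕ) :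
    (w + c) ^ n = w ^ n + n * w ^ (n - 1) * c + c ^ 2 * TTr w c n := by
  induction n with
  | zero => simp [TTr]
  | succ n ih =>
    rw [pow_succ, ih, TTr]
    rcases n with _ | n
    · simp [TTr]
    · simp only [Nat.add_sub_cancel]
      push_cast
      ring

theorem deg_pow_le {w : ℤ[X]} (hw : w.degree ≤ 1) (n : ℕ) : (w ^ n).degree ≤ n := by
  refine (degree_pow_le w n).trans ?_
  calc n • w.degree ≤ n • (1 : WithBot ℕ) := nsmul_le_nsmul_right hw n
    _ = n := by simp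

theorem deg_TTr {w : ℤ[X]} (hw : w.degree ≤ 1) (c : ℤ) (n : ℕ) :
    (TTr w (C c) n).degree < ((n - 1 : ℕ) : WithBot ℕ) := by
  induction n with
  | zero =>
    rw [TTr, degree_zero]
    exact WithBot.bot_lt_coe _
  | succ n ih =>
    rw [TTr]
    rcases n with _ | n
    · rw [TTr]
      simp only [mul_zero, Nat.cast_zero, zero_mul, add_zero, degree_zero]
      exact WithBot.bot_lt_coe _
    · simp only [Nat.add_sub_cancel] at ih ⊢
      refine lt_of_le_of_lt (degree_add_le _ _) (max_lt ?_ ?_)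
      · by_cases h0 : TTr w (C c) (n + 1) = 0
        · rw [h0, mul_zero, degree_zero]
          exact WithBot.bot_lt_coe _
        · rw [degree_mul]
          have h1 : (w + C c).degree ≤ 1 :=
            (degree_add_le _ _).trans (max_le hw (degree_C_le.trans (by norm_num)))
          have h2 : (w + C c).degree + (TTr w (C c) (n + 1)).degree ≤
              1 + (TTr w (C c) (n + 1)).degree := add_le_add_left h1 _
          refine h2.trans_lt ?_
          rw [degree_eq_natDegree h0] at ih ⊢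
          have h3 : (TTr w (C c) (n + 1)).natDegree < n := by exact_mod_cast ih
          have : 1 + (TTr w (C c) (n + 1)).natDegree < n + 1 := by omega
          exact_mod_cast this
      · have h1 : (((n + 1 : ℕ) : ℤ[X]) * w ^ n).degree ≤ n := by
          refine (degree_mul_le _ _).trans ?_
          have h2 : (((n + 1 : ℕ) : ℤ[X])).degree ≤ 0 := by
            rw [← C_eq_natCast]; exact degree_C_le
          calc _ ≤ (0 : WithBot ℕ) + n := add_le_add h2 (deg_pow_le hw n)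
            _ = n := zero_add _
        refine h1.trans_lt ?_
        exact_mod_cast Nat.lt_succ_self n

theorem deg_gen {w : ℤ[X]} (hw : w.degree ≤ 1) (a b : ℕ) (ha : 1 ≤ a) :
    ((w + C (a : ℤ)) ^ (a + b) - (w + C ((a + b : ℕ) : ℤ)) ^ a * w ^ b).degree <
      ((a + b - 1 : ℕ) : WithBot ℕ) := by
  have h1 := TTr_spec w (C (a : ℤ)) (a + b)
  have h2 := TTr_spec w (C ((a + b : ℕ) : ℤ)) a
  have e : (w + C (a : ℤ)) ^ (a + b) - (w + C ((a + b : ℕ) : ℤ)) ^ a * w ^ b =
      C ((a : ℤ) ^ 2) * TTr w (C (a : ℤ)) (a + b) -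
        C (((a + b : ℕ) : ℤ) ^ 2) * (TTr w (C ((a + b : ℕ) : ℤ)) a * w ^ b) := by
    rw [h1, h2]
    obtain ⟨i, rfl⟩ : ∃ i, a = i + 1 := ⟨a - 1, by omega⟩
    have e1 : i + 1 + b - 1 = i + b := by omega
    rw [e1, Nat.add_sub_cancel]
    simp only [C_pow]
    have e2 : C (((i + 1 : ℕ) : ℤ)) = (((i + 1 : ℕ) : ℤ[X])) := by simp
    have e3 : C (((i + 1 + b : ℕ) : ℤ)) = (((i + 1 + b : ℕ) : ℤ[X])) := by simp
    rw [e2, e3]
    ring
  rw [e]
  refine lt_of_le_of_lt (degree_sub_le _ _) (max_lt ?_ ?_)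
  · refine lt_of_le_of_lt ((degree_mul_le _ _).trans (add_le_add_left degree_C_le _)) ?_
    rw [zero_add]
    exact deg_TTr hw _ _
  · refine lt_of_le_of_lt ((degree_mul_le _ _).trans (add_le_add_left degree_C_le _)) ?_
    rw [zero_add]
    by_cases h0 : TTr w (C ((a + b : ℕ) : ℤ)) a = 0
    · rw [h0, zero_mul, degree_zero]
      exact WithBot.bot_lt_coe _
    · have h3 := deg_TTr hw ((a + b : ℕ) : ℤ) a
      have h4 := deg_pow_le hw b
      rw [degree_mul]
      rw [degree_eq_natDegree h0] at h3 ⊢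
      have h5 : (TTr w (C ((a + b : ℕ) : ℤ)) a).natDegree < a - 1 := by exact_mod_cast h3
      refine (add_le_add_right h4 _).trans_lt ?_
      have : (TTr w (C ((a + b : ℕ) : ℤ)) a).natDegree + b < a + b - 1 := by omega
      exact_mod_cast this

theorem natDegree_of_degree_lt {P : ℤ[X]} {n : ℕ} (h : P.degree < ((n - 1 : ℕ) : WithBot ℕ)) :
    P.natDegree ≤ n - 2 := by
  by_cases h0 : P = 0
  · rw [h0]; simp
  · rw [degree_eq_natDegree h0] at h
    have : P.natDegree < n - 1 := by exact_mod_cast h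
    omega

variable {K : Type} [Field K] [NumberField K]

/-- **First rule.** -/
theorem some_mean {p q : ℕ} (a b : ℕ) (ha : 1 ≤ a) (hb : 1 ≤ b) (hab : p * a = q * b)
    (hθ : 0 < 1 - 1 / ((a + b : ℕ) : ℝ) - 1 / ((p * a : ℕ) : ℝ))
    (S : Set (HeightOneSpectrum (𝓞 K))) (h : Some' (a + b) (p * a) S) : Some' p q S := by
  obtain ⟨s, hs⟩ : ∃ s : ℤ, s = ((a + b : ℕ) : ℤ) := ⟨_, rfl⟩
  have hsab : s = a + b := by rw [hs]; push_cast; ring
  have ha' : (1 : ℤ) ≤ a := by exact_mod_cast ha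
  have hb' : (1 : ℤ) ≤ b := by exact_mod_cast hb
  have hs0 : s ≠ 0 := by omega
  obtain ⟨w, hw⟩ : ∃ w : ℤ[X], w = C s * (X - 1) := ⟨_, rfl⟩
  have hwd : w.degree ≤ 1 := by
    rw [hw]; compute_degree
  obtain ⟨G, hG⟩ : ∃ G : ℤ[X], G = (C s * X - C (b : ℤ)) ^ (a + b) -
    (C s * X) ^ a * (C s * (X - 1)) ^ b := ⟨_, rfl⟩
  have hGw : G = (w + C (a : ℤ)) ^ (a + b) - (w + C ((a + b : ℕ) : ℤ)) ^ a * w ^ b := by
    rw [hG, hw, ← hs]
    have e1 : C s * (X - 1) + C (a : ℤ) = C s * X - C (b : ℤ) := by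
      rw [hsab, C_add]; ring
    have e2 : C s * (X - 1) + C s = C s * X := by ring
    rw [e1, e2]
  have hdeg : G.degree < ((a + b - 1 : ℕ) : WithBot ℕ) := by
    rw [hGw]; exact deg_gen hwd a b ha
  have hnd : G.natDegree ≤ a + b - 2 := natDegree_of_degree_lt hdeg
  have hfac : (C s * X) ^ a * (C s * (X - 1)) ^ b =
      C (s ^ (a + b) * (-1) ^ b) * X ^ a * (1 - X) ^ b := by
    have e1 : (X : ℤ[X]) - 1 = C (-1) * (1 - X) := by
      rw [C_neg, C_1]; ring
    rw [e1, mul_pow, mul_pow, mul_pow, ← C_pow, ← C_pow, ← C_pow, C_mul, pow_add, C_mul]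
    ring
  have hcop : ∀ x : ℂ, aeval x ((C s * X - C (b : ℤ)) ^ (a + b)) = 0 → aeval x G ≠ 0 := by
    intro x hx
    rw [map_pow, map_sub, map_mul, aeval_C, aeval_C, aeval_X] at hx
    have h1 := pow_eq_zero_iff (show a + b ≠ 0 by omega) |>.1 hx
    simp only [algebraMap_int_eq, eq_intCast] at h1
    have hsC : (s : ℂ) ≠ 0 := by exact_mod_cast hs0
    rw [hG, map_sub, map_mul, map_pow, map_pow, map_pow, map_sub, map_mul, map_mul, map_sub,
      aeval_C, aeval_C, aeval_X, map_one]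
    simp only [algebraMap_int_eq, eq_intCast]
    rw [h1, zero_pow (by omega), zero_sub]
    refine neg_ne_zero.2 (mul_ne_zero (pow_ne_zero _ ?_) (pow_ne_zero _ (mul_ne_zero hsC ?_)))
    · rw [show (s : ℂ) * x = (b : ℤ) by linear_combination h1]
      exact_mod_cast (by omega : (b : ℤ) ≠ 0)
    · intro h2
      have hx1 : x = 1 := by linear_combination h2
      rw [hx1, mul_one] at h1
      have h3 : s = b := by
        have : (s : ℂ) = ((b : ℤ) : ℂ) := by linear_combination h1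
        exact_mod_cast this
      omega
  have hroot : ∃ x : ℂ, aeval x ((C s * X - C (b : ℤ)) ^ (a + b)) = 0 := by
    refine ⟨(b : ℂ) / s, ?_⟩
    have hsC : (s : ℂ) ≠ 0 := by exact_mod_cast hs0
    rw [map_pow, map_sub, map_mul, aeval_C, aeval_C, aeval_X]
    simp only [algebraMap_int_eq, eq_intCast]
    rw [mul_div_cancel₀ _ hsC, Int.cast_natCast, sub_self, zero_pow (by omega)]
  have hG0 : G ≠ 0 := by
    rintro h0
    obtain ⟨x, hx⟩ := hroot
    have := hcop x hx
    rw [h0, map_zero] at this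
    exact this rfl
  have hFd : (C s * X - C (b : ℤ)).natDegree ≤ 1 := by compute_degree
  have hFc : (C s * X - C (b : ℤ)).coeff 1 = s := by
    rw [coeff_sub, coeff_C_mul, coeff_X_one, coeff_C]
    simp
  refine cover' (F := (C s * X - C (b : ℤ)) ^ (a + b)) (G := G) (U := G) (N := a + b) (by omega)
    ?_ ?_ (by omega) hG0 hcop ?_ ?_ ?_ hθ ?_ S h
  · have := natDegree_pow_le_of_le (a + b) hFd
    rwa [mul_one] at this
  · have h1 := coeff_pow_of_natDegree_le (p := C s * X - C (b : ℤ)) (n := 1) (m := a + b) hFd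
    rw [mul_one, hFc] at h1
    rw [h1]
    exact pow_ne_zero _ hs0
  · exact ⟨1, 0, 0, C s * X - C (b : ℤ), one_ne_zero, by simp, Or.inl rfl, Or.inl rfl⟩
  · have hiff : p * a = 0 ↔ p = 0 := by
      rw [mul_eq_zero]
      exact ⟨fun h1 => h1.resolve_right (by omega), fun h1 => Or.inl h1⟩
    have hiff' : p * a = 0 ↔ q = 0 := by
      rw [hab, mul_eq_zero]
      exact ⟨fun h1 => h1.resolve_right (by omega), fun h1 => Or.inl h1⟩
    refine ⟨-(s ^ (a + b) * (-1) ^ b), a, b, 1,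
      neg_ne_zero.2 (mul_ne_zero (pow_ne_zero _ hs0) (pow_ne_zero _ (by norm_num))), ?_,
      Or.inr ⟨hiff, ⟨1, by ring⟩⟩, Or.inr ⟨hiff', ⟨1, ?_⟩⟩⟩
    · rw [hG, hfac, C_neg]; ring
    · rw [hab]; ring
  · exact ⟨1, 0, 0, 1, one_ne_zero, by simp, Or.inl rfl, Or.inl rfl⟩
  · have h1 : (G.natDegree : ℝ) ≤ ((a + b - 2 : ℕ) : ℝ) := by exact_mod_cast hnd
    rw [Nat.cast_sub (by omega : 2 ≤ a + b)] at h1
    refine h1.trans (le_of_eq ?_)
    have haR : (a : ℝ) ≠ 0 := by
      have : a ≠ 0 := by omega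
      exact_mod_cast this
    have hbR : (b : ℝ) ≠ 0 := by
      have : b ≠ 0 := by omega
      exact_mod_cast this
    have habR : (a : ℝ) + b ≠ 0 := by
      have : a + b ≠ 0 := by omega
      exact_mod_cast this
    push_cast
    have hab' : (p : ℝ) * a = q * b := by exact_mod_cast hab
    by_cases hp : (p : ℝ) = 0
    · have hq : (q : ℝ) = 0 := by
        rw [hp, zero_mul] at hab'
        exact (mul_eq_zero.1 hab'.symm).resolve_right hbR
      rw [hp, hq]
      field_simp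
      ring
    · have hq : (q : ℝ) ≠ 0 := by
        intro h0
        rw [h0, zero_mul] at hab'
        exact mul_ne_zero hp haR hab'
      have e1 : (a : ℝ) * (1 / (p * a)) = 1 / p := by field_simp
      have e2 : (b : ℝ) * (1 / (p * a)) = 1 / q := by rw [hab']; field_simp
      have e3 : ((a : ℝ) + b) * (1 / (a + b)) = 1 := by field_simp
      linear_combination e1 + e2 + e3

/-- **Second rule.** -/
theorem some_mean' {p q : ℕ} (hp : 2 ≤ p)
    (hθ : 0 < 1 - 1 / (p : ℝ) - 1 / ((q * (p + 1) : ℕ) : ℝ))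
    (S : Set (HeightOneSpectrum (𝓞 K))) (h : Some' p (q * (p + 1)) S) : Some' p q S := by
  obtain ⟨r, hr⟩ : ∃ r : ℤ, r = (p : ℤ) := ⟨_, rfl⟩
  have hr2 : 2 ≤ r := by rw [hr]; exact_mod_cast hp
  have hr0 : r ≠ 0 := by omega
  obtain ⟨L, hL⟩ : ∃ L : ℤ[X], L = C r * X - C (r + 1) := ⟨_, rfl⟩
  have hLd : L.natDegree ≤ 1 := by rw [hL]; compute_degree
  have hLd' : L.degree ≤ 1 := by rw [hL]; compute_degree
  have hLc : L.coeff 1 = r := by
    rw [hL, coeff_sub, coeff_C_mul, coeff_X_one, coeff_C]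
    simp
  obtain ⟨G, hG⟩ : ∃ G : ℤ[X], G = X * L ^ p - C (r ^ p) * (X - 1) ^ (p + 1) := ⟨_, rfl⟩
  have hGd : C (-r) * G = (L + C ((1 : ℕ) : ℤ)) ^ (1 + p) -
      (L + C ((1 + p : ℕ) : ℤ)) ^ 1 * L ^ p := by
    have e1 : L + C ((1 : ℕ) : ℤ) = C r * (X - 1) := by
      rw [hL, Nat.cast_one, C_add, C_1]; ring
    have e2 : L + C ((1 + p : ℕ) : ℤ) = C r * X := by
      rw [hL, hr]; push_cast; rw [C_add, C_add, C_1]; ring
    rw [e1, e2, hG, mul_pow, ← C_pow, add_comm 1 p, pow_succ r p, C_mul, C_neg]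
    ring
  have hdeg : G.natDegree ≤ p - 1 := by
    have h1 := deg_gen hLd' 1 p le_rfl
    rw [← hGd] at h1
    have h2 : G.degree < ((1 + p - 1 : ℕ) : WithBot ℕ) := by
      rw [degree_C_mul (neg_ne_zero.2 hr0)] at h1
      exact h1
    have h3 := natDegree_of_degree_lt h2
    omega
  have hcop : ∀ x : ℂ, aeval x (X * L ^ p) = 0 → aeval x G ≠ 0 := by
    intro x hx
    rw [map_mul, map_pow, aeval_X] at hx
    have hrC : (r : ℂ) ≠ 0 := by exact_mod_cast hr0
    have eL : aeval x L = (r : ℂ) * x - (r + 1) := by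
      rw [hL, map_sub, map_mul, aeval_C, aeval_C, aeval_X]
      simp only [algebraMap_int_eq, eq_intCast]
      push_cast; ring
    have e : aeval x G = x * (aeval x L) ^ p - (r : ℂ) ^ p * (x - 1) ^ (p + 1) := by
      rw [hG]
      simp only [map_sub, map_mul, map_pow, aeval_C, aeval_X, map_one]
      simp only [algebraMap_int_eq, eq_intCast]
    rw [e, hx, zero_sub]
    refine neg_ne_zero.2 (mul_ne_zero (pow_ne_zero _ hrC) (pow_ne_zero _ ?_))
    intro h1
    have hx1 : x = 1 := by linear_combination h1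
    rw [eL, hx1] at hx
    have h2 : ((r : ℂ) * 1 - (r + 1)) ^ p = (-1) ^ p := by ring
    rw [h2, one_mul] at hx
    exact pow_ne_zero p (by norm_num) hx
  have hG0 : G ≠ 0 := by
    intro h0
    have := hcop 0 (by simp)
    rw [h0, map_zero] at this
    exact this rfl
  refine cover' (F := X * L ^ p) (G := G) (U := G) (N := p + 1) (by omega)
    ?_ ?_ (by omega) hG0 hcop ?_ ?_ ?_ hθ ?_ S h
  · have h1 := natDegree_pow_le_of_le p hLd
    rw [mul_one] at h1
    have h2 := natDegree_mul_le_of_le (p := (X : ℤ[X])) natDegree_X_le h1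
    omega
  · rw [coeff_X_mul]
    have h1 := coeff_pow_of_natDegree_le (p := L) (n := 1) (m := p) hLd
    rw [mul_one, hLc] at h1
    rw [h1]
    exact pow_ne_zero _ hr0
  · exact ⟨1, 1, 0, L, one_ne_zero, by simp, Or.inr ⟨Iff.rfl, ⟨1, by ring⟩⟩, Or.inl rfl⟩
  · refine ⟨-(r ^ p * (-1) ^ (p + 1)), 0, p + 1, 1,
      neg_ne_zero.2 (mul_ne_zero (pow_ne_zero _ hr0) (pow_ne_zero _ (by norm_num))), ?_,
      Or.inl rfl, Or.inr ⟨?_, ⟨1, by ring⟩⟩⟩
    · have e1 : (X : ℤ[X]) - 1 = C (-1) * (1 - X) := by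
        rw [C_neg, C_1]; ring
      rw [hG, e1, mul_pow, ← C_pow, C_neg, C_mul]
      simp only [pow_zero, one_pow, mul_one]
      ring
    · rw [mul_eq_zero]
      exact ⟨fun h1 => h1.resolve_right (by omega), fun h1 => Or.inl h1⟩
  · exact ⟨1, 0, 0, 1, one_ne_zero, by simp, Or.inl rfl, Or.inl rfl⟩
  · have h1 : (G.natDegree : ℝ) ≤ ((p - 1 : ℕ) : ℝ) := by exact_mod_cast hdeg
    rw [Nat.cast_sub (by omega : 1 ≤ p), Nat.cast_one] at h1
    refine h1.trans (le_of_eq ?_)
    have hpR : (p : ℝ) ≠ 0 := by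
      have : p ≠ 0 := by omega
      exact_mod_cast this
    have hpR' : (p : ℝ) + 1 ≠ 0 := by positivity
    push_cast
    by_cases hq : (q : ℝ) = 0
    · rw [hq]
      field_simp
      ring
    · field_simp
      ring

end Pool.Agent.N757.SL
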