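import Pool.Agent.N757.SL.Mean

/-!
# Stacky lines: the cover of the line with points of orders `q`, `2`, `q` odd
-/

set_option autoImplicit false

namespace Pool.Agent.N757.SL

open NumberField IsDedekindDomain Height Real Polynomial Pool.Agent.N757.RD Pool.Agent.N757.TL

section alg

variable {R : Type} [CommRing R]

/-- the coefficients of `(Z + 1 + 2 √Z) ^ n = fst + snd √Z` -/
def tw (Z : R) : ℕ → R × R
  | 0 => (1, 0)
  | n + 1 => ((Z + 1) * (tw Z n).1 + 2 * Z * (tw Z n).2, 2 * (tw Z n).1 + (Z + 1) * (tw Z n).2)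

theorem tw_norm (Z : R) (n : ℕ) : (tw Z n).1 ^ 2 - Z * (tw Z n).2 ^ 2 = (Z - 1) ^ (2 * n) := by
  induction n with
  | zero => simp [tw]
  | succ n ih =>
    have e : (Z - 1) ^ (2 * (n + 1)) = (Z - 1) ^ (2 * n) * (Z - 1) ^ 2 := by ring
    rw [e, ← ih, tw]
    ring

theorem tw_map {S : Type} [CommRing S] (f : R →+* S) (Z : R) (n : ℕ) :
    tw (f Z) n = (f (tw Z n).1, f (tw Z n).2) := by
  induction n with
  | zero => simp [tw]
  | succ n ih =>
    rw [tw, tw, ih]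
    simp only [map_add, map_mul, map_one, map_ofNat]

theorem tw_one (n : ℕ) : (tw (1 : R) (n + 1)).1 = 2 * 4 ^ n ∧ (tw (1 : R) (n + 1)).2 = 2 * 4 ^ n := by
  induction n with
  | zero => simp [tw, one_add_one_eq_two]
  | succ n ih =>
    obtain ⟨h1, h2⟩ := ih
    constructor
    · rw [tw]
      simp only
      rw [h1, h2]; ring
    · rw [tw]
      simp only
      rw [h1, h2]; ring

/-- `E` -/
def tE (q Z : R) (j : ℕ) : R := (1 - q) * (tw Z j).1 + (Z - q) * (tw Z j).2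

/-- `A` -/
def tA (q Z : R) (j : ℕ) : R := (Z - q) * (tw Z j).1 + (1 - q) * Z * (tw Z j).2

theorem tA_tE_norm (q Z : R) (j : ℕ) :
    tA q Z j ^ 2 - Z * tE q Z j ^ 2 = (Z - 1) ^ (2 * j + 1) * (Z - q ^ 2) := by
  have h := tw_norm Z j
  have e : (Z - 1) ^ (2 * j + 1) * (Z - q ^ 2) =
      (Z - 1) ^ (2 * j) * ((Z - 1) * (Z - q ^ 2)) := by ring
  rw [e, ← h, tA, tE]
  ring

theorem tA_tE_cross (q Z : R) (j : ℕ) :
    tE q Z j * (tw Z j).1 - tA q Z j * (tw Z j).2 = (1 - q) * (Z - 1) ^ (2 * j) := by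
  rw [← tw_norm Z j, tA, tE]
  ring

theorem tA_one (q : R) (j : ℕ) : tA q 1 (j + 1) = (1 - q) * 4 ^ (j + 1) := by
  obtain ⟨h1, h2⟩ := tw_one (R := R) j
  rw [tA, h1, h2]
  ring

end alg

/-- the polynomials -/
noncomputable def ZP (q : ℤ) : ℤ[X] := C (-q ^ 2) * (X - 1)

/-- the polynomial `H` -/
noncomputable def HP (j : ℕ) : ℤ[X] := tE (C (2 * j + 1 : ℤ)) (ZP (2 * j + 1)) j

/-- the polynomial `x` -/
noncomputable def xP (j : ℕ) : ℤ[X] :=
  -((C (2 * j + 1 : ℤ) * (X - 1) + 1) * (tw (ZP (2 * j + 1)) j).1 +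
    (1 - C (2 * j + 1 : ℤ)) * (C (2 * j + 1 : ℤ) * (X - 1)) * (tw (ZP (2 * j + 1)) j).2)

/-- the polynomial `q² (X - 1) + 1` -/
noncomputable def LP (j : ℕ) : ℤ[X] := C ((2 * j + 1 : ℤ) ^ 2) * (X - 1) + 1

theorem tA_xP (j : ℕ) : tA (C (2 * j + 1 : ℤ)) (ZP (2 * j + 1)) j = C (2 * j + 1 : ℤ) * xP j := by
  unfold tA xP
  have : ZP (2 * j + 1) = -(C (2 * j + 1 : ℤ) ^ 2 * (X - 1)) := by
    unfold ZP
    rw [C_neg, C_pow]; ring
  rw [this]
  ring

theorem odd_identity (j : ℕ) : X * LP j ^ (2 * j + 1) - (X - 1) * HP j ^ 2 = xP j ^ 2 := by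
  have h := tA_tE_norm (C (2 * j + 1 : ℤ)) (ZP (2 * j + 1)) j
  rw [tA_xP] at h
  have hZ : ZP (2 * j + 1) = -(C (2 * j + 1 : ℤ) ^ 2 * (X - 1)) := by
    unfold ZP
    rw [C_neg, C_pow]; ring
  have hL : ZP (2 * j + 1) - 1 = (-1) * LP j := by
    rw [hZ]; unfold LP
    rw [C_pow]; ring
  have hodd : (-1 : ℤ[X]) ^ (2 * j + 1) = -1 := by rw [pow_succ, pow_mul]; norm_num
  rw [hL, mul_pow (-1 : ℤ[X]), hodd] at h
  rw [show tE (C (2 * j + 1 : ℤ)) (ZP (2 * j + 1)) j = HP j from rfl] at h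
  rw [hZ] at h
  have hq : (C (2 * j + 1 : ℤ) : ℤ[X]) ≠ 0 := C_ne_zero.2 (by omega)
  refine mul_left_cancel₀ (pow_ne_zero 2 hq) ?_
  linear_combination -h

theorem tw_deg (Z : ℤ[X]) (hZ : Z.degree ≤ 1) (n : ℕ) :
    ((tw Z n).1 - Z ^ n).degree < n ∧ (Z * (tw Z n).2 - C (2 * n : ℤ) * Z ^ n).degree < n := by
  induction n with
  | zero =>
    simp only [tw, pow_zero, sub_self, mul_zero, Nat.cast_zero, C_0, zero_mul, degree_zero]
    exact ⟨WithBot.bot_lt_coe 0, WithBot.bot_lt_coe 0⟩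
  | succ n ih =>
    obtain ⟨h1, h2⟩ := ih
    obtain ⟨r, hr⟩ : ∃ r, r = (tw Z n).1 - Z ^ n := ⟨_, rfl⟩
    obtain ⟨t, ht⟩ : ∃ t, t = Z * (tw Z n).2 - C (2 * n : ℤ) * Z ^ n := ⟨_, rfl⟩
    rw [← hr] at h1
    rw [← ht] at h2
    have hn : ((n : ℕ) : WithBot ℕ) < ((n + 1 : ℕ) : WithBot ℕ) := by exact_mod_cast Nat.lt_succ_self n
    have hZn : (Z ^ n).degree < ((n + 1 : ℕ) : WithBot ℕ) := (deg_pow_le hZ n).trans_lt hn
    have key : ∀ (A B : ℤ[X]), A.degree ≤ 1 → B.degree < n → (A * B).degree < ((n + 1 : ℕ) : WithBot ℕ) := by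
      intro A B hA hB
      by_cases h0 : B = 0
      · rw [h0, mul_zero, degree_zero]; exact WithBot.bot_lt_coe _
      · rw [degree_mul]
        refine (add_le_add_left hA _).trans_lt ?_
        rw [degree_eq_natDegree h0] at hB ⊢
        have h3 : B.natDegree < n := by exact_mod_cast hB
        have : 1 + B.natDegree < n + 1 := by omega
        exact_mod_cast this
    have keyC : ∀ (c : ℤ) (B : ℤ[X]), B.degree < ((n + 1 : ℕ) : WithBot ℕ) →
        (C c * B).degree < ((n + 1 : ℕ) : WithBot ℕ) := by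
      intro c B hB
      refine ((degree_mul_le _ _).trans (add_le_add_left degree_C_le _)).trans_lt ?_
      rw [zero_add]; exact hB
    have hZ1 : (Z + 1).degree ≤ 1 :=
      (degree_add_le _ _).trans (max_le hZ (degree_one_le.trans (by norm_num)))
    constructor
    · have e : (tw Z (n + 1)).1 - Z ^ (n + 1) =
          C (1 + 4 * n : ℤ) * Z ^ n + ((Z + 1) * r + C 2 * t) := by
        rw [tw, hr, ht]
        simp only [C_add, C_mul, C_1, C_ofNat, map_natCast]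
        ring
      rw [e]
      refine (degree_add_le _ _).trans_lt (max_lt (keyC _ _ hZn)
        ((degree_add_le _ _).trans_lt (max_lt (key _ _ hZ1 h1) (keyC _ _ (h2.trans hn)))))
    · have e : Z * (tw Z (n + 1)).2 - C (2 * ((n + 1 : ℕ) : ℤ)) * Z ^ (n + 1) =
          C (2 * n : ℤ) * Z ^ n + ((C 2 * Z) * r + (Z + 1) * t) := by
        rw [tw, hr, ht]
        simp only [C_mul, C_ofNat, map_natCast]
        push_cast
        ring
      rw [e]
      have h2Z : (C 2 * Z : ℤ[X]).degree ≤ 1 := by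
        refine (degree_mul_le _ _).trans ?_
        calc _ ≤ (0 : WithBot ℕ) + 1 := add_le_add degree_C_le hZ
          _ = 1 := zero_add _
      refine (degree_add_le _ _).trans_lt (max_lt (keyC _ _ hZn)
        ((degree_add_le _ _).trans_lt (max_lt (key _ _ h2Z h1) (key _ _ hZ1 h2))))

theorem HP_deg (j : ℕ) (hj : 1 ≤ j) : (HP j).natDegree ≤ j - 1 := by
  obtain ⟨Z, hZ⟩ : ∃ Z, Z = ZP (2 * j + 1) := ⟨_, rfl⟩
  obtain ⟨q, hq⟩ : ∃ q : ℤ, q = 2 * j + 1 := ⟨_, rfl⟩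
  have hq2 : q ^ 2 ≠ 0 := pow_ne_zero 2 (by omega)
  have hZd : Z.degree = 1 := by
    rw [hZ, ZP, ← hq, degree_C_mul (neg_ne_zero.2 hq2)]
    exact degree_X_sub_C (1 : ℤ)
  obtain ⟨h1, h2⟩ := tw_deg Z hZd.le j
  have e : Z * HP j = C (1 - q) * Z * ((tw Z j).1 - Z ^ j) +
      ((Z - C q) * (Z * (tw Z j).2 - C (2 * j : ℤ) * Z ^ j) + C (-(q * (2 * j))) * Z ^ j) := by
    unfold HP tE
    rw [← hZ, ← hq]
    have e1 : (2 * j : ℤ) = q - 1 := by rw [hq]; ring
    rw [e1, C_sub, C_sub, C_neg, C_mul, C_sub, C_1]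
    ring
  have hn : ((j : ℕ) : WithBot ℕ) < ((j + 1 : ℕ) : WithBot ℕ) := by exact_mod_cast Nat.lt_succ_self j
  have key : ∀ (A B : ℤ[X]), A.degree ≤ 1 → B.degree < j → (A * B).degree < ((j + 1 : ℕ) : WithBot ℕ) := by
    intro A B hA hB
    by_cases h0 : B = 0
    · rw [h0, mul_zero, degree_zero]; exact WithBot.bot_lt_coe _
    · rw [degree_mul]
      refine (add_le_add_left hA _).trans_lt ?_
      rw [degree_eq_natDegree h0] at hB ⊢
      have h3 : B.natDegree < j := by exact_mod_cast hB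
      have : 1 + B.natDegree < j + 1 := by omega
      exact_mod_cast this
  have h3 : (Z * HP j).degree < ((j + 1 : ℕ) : WithBot ℕ) := by
    rw [e]
    refine (degree_add_le _ _).trans_lt (max_lt (key _ _ ?_ h1)
      ((degree_add_le _ _).trans_lt (max_lt (key _ _ ?_ h2) ?_)))
    · refine (degree_mul_le _ _).trans ?_
      calc _ ≤ (0 : WithBot ℕ) + 1 := add_le_add degree_C_le hZd.le
        _ = 1 := zero_add _
    · exact (degree_sub_le _ _).trans (max_le hZd.le (degree_C_le.trans (by norm_num)))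
    · refine ((degree_mul_le _ _).trans (add_le_add_left degree_C_le _)).trans_lt ?_
      rw [zero_add]
      exact (deg_pow_le hZd.le j).trans_lt hn
  by_cases h0 : HP j = 0
  · rw [h0]; simp
  · rw [degree_mul, hZd, degree_eq_natDegree h0] at h3
    have h4 : 1 + (HP j).natDegree < j + 1 := by exact_mod_cast h3
    omega

theorem odd_coprime (j : ℕ) (hj : 1 ≤ j) (x : ℂ) (hx : aeval x (X * LP j ^ (2 * j + 1)) = 0) :
    aeval x ((X - 1) * HP j ^ 2) ≠ 0 := by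
  intro h0
  obtain ⟨q, hq⟩ : ∃ q : ℂ, q = 2 * j + 1 := ⟨_, rfl⟩
  obtain ⟨Z, hZ⟩ : ∃ Z : ℂ, Z = aeval x (ZP (2 * j + 1)) := ⟨_, rfl⟩
  have hj0 : (j : ℂ) ≠ 0 := by
    have : j ≠ 0 := by omega
    exact_mod_cast this
  have hZ' : Z = -(q ^ 2 * (x - 1)) := by
    rw [hZ, ZP, hq]
    simp [map_ofNat]
  have hL : aeval x (LP j) = -(Z - 1) := by
    rw [hZ', hq, LP]
    simp [map_ofNat]
    ring
  have hH : aeval x (HP j) = tE q Z j := by
    have h1 := tw_map (aeval x : ℤ[X] →ₐ[ℤ] ℂ).toRingHom (ZP (2 * j + 1)) j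
    simp only [AlgHom.toRingHom_eq_coe, RingHom.coe_coe] at h1
    rw [← hZ] at h1
    unfold HP tE
    rw [h1, hq, hZ]
    simp [map_ofNat]
  have hA : tA q Z j = q * aeval x (xP j) := by
    have h1 := tw_map (aeval x : ℤ[X] →ₐ[ℤ] ℂ).toRingHom (ZP (2 * j + 1)) j
    simp only [AlgHom.toRingHom_eq_coe, RingHom.coe_coe] at h1
    rw [← hZ] at h1
    have h2 := congrArg (aeval x) (tA_xP j)
    rw [map_mul, aeval_C] at h2
    have h3 : ((algebraMap ℤ ℂ) (2 * j + 1)) = q := by rw [hq]; simp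
    rw [h3] at h2
    rw [← h2]
    unfold tA
    rw [h1, hZ, hq]
    simp [map_ofNat]
  have hid := congrArg (aeval x) (odd_identity j)
  rw [map_sub, hx, h0, sub_zero, map_pow] at hid
  have hx0 : aeval x (xP j) = 0 := pow_eq_zero_iff two_ne_zero |>.1 hid.symm
  rw [hx0, mul_zero] at hA
  rw [map_mul, map_pow, map_sub, aeval_X, map_one] at h0
  rw [map_mul, map_pow, aeval_X] at hx
  rcases mul_eq_zero.1 h0 with h1 | h1
  · have hx1 : x = 1 := by linear_combination h1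
    rw [hL, hZ', hx1] at hx
    simp at hx
  · have hE : tE q Z j = 0 := by rw [← hH]; exact pow_eq_zero_iff two_ne_zero |>.1 h1
    have h2 := tA_tE_cross q Z j
    rw [hE, hA, zero_mul, zero_mul, sub_zero] at h2
    have h3 : (1 - q) ≠ 0 := by
      rw [hq]
      intro h4
      have : (j : ℂ) = 0 := by linear_combination -h4 / 2
      exact hj0 this
    have h4 := (mul_eq_zero.1 h2.symm).resolve_left h3
    have h5 : Z = 1 := by
      have := pow_eq_zero_iff (by omega) |>.1 h4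
      linear_combination this
    obtain ⟨i, rfl⟩ : ∃ i, j = i + 1 := ⟨j - 1, by omega⟩
    rw [h5, tA_one] at hA
    exact mul_ne_zero h3 (pow_ne_zero _ (by norm_num)) hA

variable {K : Type} [Field K] [NumberField K]

/-- from `(2 j + 1, 0)` to `(2 j + 1, 2)` -/
theorem some_odd {j : ℕ} (hj : 1 ≤ j)
    (S : Set (HeightOneSpectrum (𝓞 K))) (h : Some' (2 * j + 1) 2 S) : Some' (2 * j + 1) 0 S := by
  have hjR : (1 : ℝ) ≤ j := by exact_mod_cast hj
  have dL : (LP j).natDegree ≤ 1 := by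
    unfold LP; compute_degree
  have cL : (LP j).coeff 1 = (2 * j + 1 : ℤ) ^ 2 := by
    have e : LP j = C ((2 * j + 1 : ℤ) ^ 2) * X + C (1 - (2 * j + 1 : ℤ) ^ 2) := by
      unfold LP
      rw [C_sub, C_1]; ring
    rw [e, coeff_add, coeff_C_mul, coeff_X_one, coeff_C]
    simp
  have dH := HP_deg j hj
  have hcop := odd_coprime j hj
  have hH0 : HP j ≠ 0 := by
    intro h0
    have h1 := hcop 0 (by simp)
    rw [h0] at h1
    simp at h1
  refine cover' (F := X * LP j ^ (2 * j + 1)) (G := (X - 1) * HP j ^ 2) (U := HP j)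
    (N := 2 * j + 1 + 1) (by omega) ?_ ?_ ?_ hH0 hcop ?_ ?_ ?_ ?_ ?_ S h
  · have h1 := natDegree_pow_le_of_le (2 * j + 1) dL
    rw [mul_one] at h1
    have h2 := natDegree_mul_le_of_le (p := (X : ℤ[X])) natDegree_X_le h1
    omega
  · rw [coeff_X_mul]
    have h1 := coeff_pow_of_natDegree_le (p := LP j) (n := 1) (m := 2 * j + 1) dL
    rw [mul_one, cL] at h1
    rw [h1]
    exact pow_ne_zero _ (pow_ne_zero _ (by omega))
  · have h1 := natDegree_pow_le_of_le 2 dH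
    have h2 : (X - 1 : ℤ[X]).natDegree ≤ 1 := by compute_degree
    have h3 := natDegree_mul_le_of_le h2 h1
    omega
  · exact ⟨1, 1, 0, LP j, one_ne_zero, by simp, Or.inr ⟨Iff.rfl, ⟨1, by ring⟩⟩, Or.inl rfl⟩
  · refine ⟨-1, 0, 0, xP j, by norm_num, ?_, Or.inl rfl, Or.inl rfl⟩
    have h3 := odd_identity j
    rw [C_neg, C_1]
    linear_combination -h3
  · refine ⟨-1, 0, 1, 2, by norm_num, ⟨1, ?_⟩, Or.inl rfl, Or.inr rfl⟩
    rw [C_neg, C_1]; ring
  · push_cast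
    have : 1 / (2 * (j : ℝ) + 1) ≤ 1 / 3 := one_div_le_one_div_of_le (by norm_num) (by linarith)
    linarith
  · have h1 : ((HP j).natDegree : ℝ) ≤ ((j - 1 : ℕ) : ℝ) := by exact_mod_cast dH
    rw [Nat.cast_sub hj, Nat.cast_one] at h1
    refine h1.trans (le_of_eq ?_)
    have : (2 * (j : ℝ) + 1) ≠ 0 := by positivity
    push_cast
    field_simp
    ring

end Pool.Agent.N757.SL
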