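import Pool.Agent.N757.SL.Final

/-!
# Stacky lines with three stacky points or cusps: consequences of the abc conjecture
-/

set_option autoImplicit false

namespace Pool.Agent.N757.SL

open NumberField IsDedekindDomain Height Real Polynomial Pool.Agent.N757.RD Pool.Agent.N757.TL

variable {K : Type} [Field K] [NumberField K]

/-- integrality on the line with points of orders `p`, `q`, `r` at `0`, `1`, `∞` -/
def IntAt3 (p q r : ℕ) (v : HeightOneSpectrum (𝓞 K)) (t : K) : Prop :=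
  (p ≠ 0 → v.valuation K t < 1 → PowAt p v t) ∧
    (q ≠ 0 → v.valuation K (1 - t) < 1 → PowAt q v (1 - t)) ∧
    (r ≠ 0 → 1 < v.valuation K t → PowAt r v t)

/-- the primes outside `S` at which `t` meets a cusp -/
def J3 (p q r : ℕ) (S : Set (HeightOneSpectrum (𝓞 K))) (t : K) : Set (HeightOneSpectrum (𝓞 K)) :=
  {v | v ∉ S ∧ ((p = 0 ∧ v.valuation K t < 1) ∨ (q = 0 ∧ v.valuation K (1 - t) < 1) ∨
    (r = 0 ∧ 1 < v.valuation K t))}

theorem J3_sub (p q r : ℕ) (S : Set (HeightOneSpectrum (𝓞 K))) (t : K) : J3 p q r S t ⊆ I t := by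
  rintro v ⟨-, ⟨-, h⟩ | ⟨-, h⟩ | ⟨-, h⟩⟩
  · left
    exact ne_of_lt ((mk_lt_one_iff v t).2 h)
  · right
    exact ne_of_lt ((mk_lt_one_iff v _).2 h)
  · left
    intro h1
    have := (mk_le_one_iff v t).1 h1.le
    exact absurd h (not_lt.2 this)

theorem J3_zero (p q : ℕ) (S : Set (HeightOneSpectrum (𝓞 K))) (t : K) : J3 p q 0 S t = J p q S t := by
  ext v
  unfold J3 J
  simp only [Set.mem_ofPred_eq, true_and]
  tauto

theorem abc_ineq3 (h : ABC K) (p q r : ℕ) {S : Set (HeightOneSpectrum (𝓞 K))} (hS : S.Finite)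
    {ε : ℝ} (hε : 0 < ε) : ∃ C : ℝ, ∀ t : K, t ≠ 0 → t ≠ 1 → (∀ v ∉ S, IntAt3 p q r v t) →
      (1 - 1 / (p : ℝ) - 1 / (q : ℝ) - 1 / (r : ℝ) - ε) * D t ≤ W (J3 p q r S t) + C := by
  obtain ⟨C, hC⟩ := h ε hε
  have hq0 : (0 : ℝ) ≤ 1 / (q : ℝ) := by positivity
  have hc1 := c1_nonneg
  have hd := dg_pos (K := K)
  refine ⟨W S + 1 / (q : ℝ) * (c1 * dg K) + |C|, ?_⟩
  intro t ht0 ht1 hint
  have ht1' : (1 : K) - t ≠ 0 := sub_ne_zero.2 ht1.symm
  have h1 := hC t ⟨ht0, ht1⟩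
  have hD := D_nonneg t
  have fI := finite_I ht0 ht1
  have fJ : (J3 p q r S t).Finite := fI.subset (J3_sub p q r S t)
  obtain ⟨A₂, hA₂⟩ : ∃ A₂ : Set (HeightOneSpectrum (𝓞 K)),
    A₂ = {v | v ∈ J3 p q r S t ∪ S ∨ (v ∈ I t ∧ v.valuation K t⁻¹ < 1 ∧ (r ≠ 0 ∧ PowAt r v t⁻¹))} :=
      ⟨_, rfl⟩
  have fA₂ : A₂.Finite := by
    rw [hA₂]
    exact ((fJ.union hS).union fI).subset fun v hv => hv.imp id fun h2 => h2.1
  obtain ⟨A₁, hA₁⟩ : ∃ A₁ : Set (HeightOneSpectrum (𝓞 K)),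
    A₁ = {v | v ∈ A₂ ∨ (v ∈ I t ∧ v.valuation K t < 1 ∧ (p ≠ 0 ∧ PowAt p v t))} := ⟨_, rfl⟩
  have fA₁ : A₁.Finite := by
    rw [hA₁]
    exact (fA₂.union fI).subset fun v hv => hv.imp id fun h2 => h2.1
  have hJA : ∀ v, v ∈ J3 p q r S t → v ∈ A₁ := fun v hv => by
    rw [hA₁]; left; rw [hA₂]; exact Or.inl (Or.inl hv)
  have hR : R t ≤ W A₁ + 1 / (q : ℝ) * D (1 - t) := by
    refine part_le ht1' q fA₁ fI ?_
    intro v hv
    by_cases hvS : v ∈ S
    · left; rw [hA₁]; left; rw [hA₂]; exact Or.inl (Or.inr hvS)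
    obtain ⟨i1, i2, i3⟩ := hint v hvS
    rcases lt_trichotomy (v.valuation K t) 1 with h2 | h2 | h2
    · left
      by_cases hp : p = 0
      · exact hJA v ⟨hvS, Or.inl ⟨hp, h2⟩⟩
      · rw [hA₁]
        exact Or.inr ⟨hv, h2, hp, i1 hp h2⟩
    · have h3 : v.valuation K (1 - t) < 1 := by
        have h4 : FinitePlace.mk v (1 - t) ≠ 1 := by
          rcases hv with h5 | h5
          · exact absurd (mk_one_of_val h2) h5
          · exact h5
        have h5 : FinitePlace.mk v (1 - t) ≤ 1 := by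
          have h6 := fin_add_le v 1 (-t)
          rw [← sub_eq_add_neg, map_neg_eq_map, map_one, mk_one_of_val h2, max_self] at h6
          exact h6
        exact (mk_lt_one_iff v _).1 (lt_of_le_of_ne h5 h4)
      by_cases hq : q = 0
      · left
        exact hJA v ⟨hvS, Or.inr (Or.inl ⟨hq, h3⟩)⟩
      · right
        exact ⟨h3, hq, i2 hq h3⟩
    · left
      by_cases hr : r = 0
      · exact hJA v ⟨hvS, Or.inr (Or.inr ⟨hr, h2⟩)⟩
      · rw [hA₁]; left; rw [hA₂]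
        refine Or.inr ⟨hv, ?_, hr, ?_⟩
        · rw [map_inv₀]
          exact inv_lt_one_of_one_lt₀ h2
        · obtain ⟨g, hg⟩ := i3 hr h2
          exact ⟨g⁻¹, by rw [map_inv₀, hg, inv_pow]⟩
  have hA : W A₁ ≤ W A₂ + 1 / (p : ℝ) * D t := by
    refine part_le ht0 p fA₂ fA₁ ?_
    intro v hv
    rw [hA₁] at hv
    rcases hv with h2 | h2
    · exact Or.inl h2
    · exact Or.inr h2.2
  have hA' : W A₂ ≤ W (J3 p q r S t ∪ S) + 1 / (r : ℝ) * D t := by
    have := part_le (inv_ne_zero ht0) r (fJ.union hS) fA₂ (by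
      intro v hv
      rw [hA₂] at hv
      rcases hv with h2 | h2
      · exact Or.inl h2
      · exact Or.inr h2.2)
    rwa [D_inv] at this
  have hJS := W_union fJ hS
  have hD1 := D_one_sub_le' t
  have h2 : 1 / (q : ℝ) * D (1 - t) ≤ 1 / (q : ℝ) * (D t + c1 * dg K) :=
    mul_le_mul_of_nonneg_left hD1 hq0
  have h3 : R t ≤ W (J3 p q r S t) + W S + 1 / (p : ℝ) * D t + 1 / (r : ℝ) * D t +
      1 / (q : ℝ) * (D t + c1 * dg K) := by
    linarith
  have hRn := R_nonneg t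
  have h4 : (1 - ε) * D t ≤ R t + |C| := by
    have h5 : (1 - ε) * D t ≤ D t / (1 + ε) := by
      rw [le_div_iff₀ (by linarith)]
      nlinarith [mul_nonneg (sq_nonneg ε) hD]
    have h6 : D t / (1 + ε) ≤ R t + |C| := by
      rw [div_le_iff₀ (by linarith)]
      have h7 := le_abs_self C
      have h8 : 0 ≤ |C| * ε := by positivity
      nlinarith
    linarith
  have e : (1 - 1 / (p : ℝ) - 1 / (q : ℝ) - 1 / (r : ℝ) - ε) * D t =
      (1 - ε) * D t - 1 / (p : ℝ) * D t - 1 / (q : ℝ) * D t - 1 / (r : ℝ) * D t := by ring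
  rw [e]
  linarith

end Pool.Agent.N757.SL
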